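import Mathlib

set_option autoImplicit false

/-! Puder–Wu conjecture (MP_dab459_al): basic definitions. Cyclic words in `F_N` are lists of
letters; the graph is encoded by a partition `π` of the half-edges. -/

namespace PW

/-- letters = half-edges: `(i, true)` is the generator `i` (and its initial half-edge), `(i, false)`
its inverse. -/
abbrev Z (N : ℕ) := Fin N × Bool

variable {N : ℕ}

/-- inverse letter / opposite half-edge -/
def inv (x : Z N) : Z N := (x.1, !x.2)

/-- the turns of a cyclic word: the pairs `(inv x_i, x_{i+1})`, cyclically -/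
def turns (L : List (Z N)) : List (Z N × Z N) := List.zip (L.map inv) (L.rotate 1)

/-- the cyclic word `L` is tight (cyclically reduced) -/
def Tight (L : List (Z N)) : Prop := ∀ t ∈ turns L, t.1 ≠ t.2

/-- number of turns between `A` and `B` -/
def tn (L : List (Z N)) (A B : Finset (Z N)) : ℕ :=
  (turns L).countP (fun t => (t.1 ∈ A ∧ t.2 ∈ B) ∨ (t.1 ∈ B ∧ t.2 ∈ A))

/-- number of turns leaving `A` -/
def cap (L : List (Z N)) (A : Finset (Z N)) : ℕ := tn L A Aᶜ

/-- number of occurrences of the letter `i` and its inverse -/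
def deg (L : List (Z N)) (i : Fin N) : ℕ := L.countP (fun x => x.1 = i)

/-- the element of the free group given by one letter -/
def lt (x : Z N) : FreeGroup (Fin N) := FreeGroup.mk [x]

/-- `L` represents (up to conjugacy) an element of the automorphic orbit of `u` -/
def Orb (u : FreeGroup (Fin N)) (L : List (Z N)) : Prop :=
  ∃ φ : FreeGroup (Fin N) ≃* FreeGroup (Fin N), IsConj (φ u) (FreeGroup.mk L)

/-- the endomorphism `x ↦ [x ∈ A: e] x [inv x ∈ A: e⁻¹]` (`i ≠ e.1`), `e ↦ e`; an automorphism -/
def aut (A : Finset (Z N)) (e : Z N) : FreeGroup (Fin N) →* FreeGroup (Fin N) :=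
  FreeGroup.lift (fun i => if i = e.1 then FreeGroup.of i else
    (if (i, true) ∈ A then lt e else 1) * FreeGroup.of i * (if (i, false) ∈ A then (lt e)⁻¹ else 1))

/-- blow-up: insert `e` at every turn from outside `A` into `A`, `inv e` at turns out of `A` -/
def blow (A : Finset (Z N)) (e : Z N) (L : List (Z N)) : List (Z N) :=
  (List.zip L (L.rotate 1)).flatMap (fun t => t.1 ::
    (if inv t.1 ∈ A then (if t.2 ∈ A then [] else [inv e]) else (if t.2 ∈ A then [e] else [])))

/-- collapse of the letter `i` -/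
def coll (i : Fin N) (L : List (Z N)) : List (Z N) := L.filter (fun x => x.1 ≠ i)

/-- the half-edges at the vertex `p` -/
def blk (π : Z N → ℕ) (p : ℕ) : Finset (Z N) := Finset.univ.filter (fun x => π x = p)

/-- `L` is a tight closed path in the graph with vertices given by `π`, the large letters `Lg` are
loops, the small letters are used at most `B` times. -/
structure Good (L : List (Z N)) (Lg : Finset (Fin N)) (π : Z N → ℕ) (B : ℕ) : Prop where
  ne : L ≠ []
  tight : Tight L
  path : ∀ t ∈ turns L, π t.1 = π t.2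
  loop : ∀ i ∈ Lg, π (i, true) = π (i, false)
  small : ∀ i, i ∉ Lg → deg L i ≤ B

/-- no fast Whitehead move (decrease at least `D`) -/
def NoFast (L : List (Z N)) (Lg : Finset (Fin N)) (π : Z N → ℕ) (D : ℕ) : Prop :=
  ∀ a : Z N, a.1 ∈ Lg → ∀ A : Finset (Z N), a ∈ A → inv a ∉ A → (∀ x ∈ A, π x = π a) →
    deg L a.1 < cap L A + D

/-- `A` is closed under inversion of large letters -/
def Closed (Lg : Finset (Fin N)) (A : Finset (Z N)) : Prop := ∀ x ∈ A, x.1 ∈ Lg → inv x ∈ A

/-- every large letter is used more than `B'` times -/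
def NoS1 (L : List (Z N)) (Lg : Finset (Fin N)) (B' : ℕ) : Prop := ∀ i ∈ Lg, B' < deg L i

/-- no vertex can be split with a new edge used at most `B'` times, separating large loops -/
def NoS2 (L : List (Z N)) (Lg : Finset (Fin N)) (π : Z N → ℕ) (B' : ℕ) : Prop :=
  ∀ (p : ℕ) (A : Finset (Z N)), (∀ x ∈ A, π x = p) → Closed Lg A → (∃ x ∈ A, x.1 ∈ Lg) →
    (∃ x, x ∉ A ∧ π x = p ∧ x.1 ∈ Lg) → B' < cap L A

/-- no small half-edge can be replaced by two less used edges -/
def NoS3 (L : List (Z N)) (Lg : Finset (Fin N)) (π : Z N → ℕ) (κ : ℕ) : Prop :=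
  ∀ (b : Z N) (A C : Finset (Z N)), b.1 ∉ Lg → A ∪ C = (blk π (π b)).erase b → Disjoint A C →
    Closed Lg A → Closed Lg C → tn L A C ≤ κ →
    tn L A {b} ≤ tn L A C ∨ tn L C {b} ≤ tn L A C

/-- no slide of small half-edges over a large half-edge decreases the length -/
def NoSlide (L : List (Z N)) (Lg : Finset (Fin N)) (π : Z N → ℕ) : Prop :=
  ∀ (b : Z N) (A : Finset (Z N)), b.1 ∈ Lg → (∀ x ∈ A, x.1 ∉ Lg ∧ π x = π b) →
    tn L A {b} ≤ tn L A (blk π (π b) \ (insert b A))

end PW
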