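import Pool.Agent.Helper693.PW.MC1
import Pool.Agent.Helper419.PW.Red

set_option autoImplicit false

namespace PW

namespace MC

variable {N : ℕ}


theorem head_one899 (h : FreeGroup (Fin N)) (y : Z N) (hh : 2 ≤ h.toWord.length) :
    (h * FreeGroup.mk [y]).toWord.head? = h.toWord.head? := by
  have hred : FreeGroup.IsReduced h.toWord := FreeGroup.isReduced_toWord
  obtain ⟨W, z, hW⟩ : ∃ W z, h.toWord = W ++ [z] := by
    have hne : h.toWord ≠ [] := by
      intro h0
      rw [h0] at hh
      simp at hh
    exact ⟨h.toWord.dropLast, h.toWord.getLast hne, (List.dropLast_append_getLast hne).symm⟩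
  have hWne : W ≠ [] := by
    rintro rfl
    rw [hW] at hh
    simp at hh
  have hWred : FreeGroup.IsReduced W := by
    rw [hW] at hred
    exact hred.pwSub ⟨[], [z], by simp⟩
  have hmk : h * FreeGroup.mk [y] = FreeGroup.mk (W ++ [z] ++ [y]) := by
    rw [← hW, ← FreeGroup.mul_mk, FreeGroup.mk_toWord]
  have hheadW : (W ++ [z]).head? = W.head? := by
    cases W with
    | nil => exact absurd rfl hWne
    | cons a t => rfl
  by_cases hc : z.1 = y.1 → z.2 = y.2
  · have h1 : FreeGroup.IsReduced (W ++ [z] ++ [y]) := by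
      refine FreeGroup.IsReduced.append_overlap (hW ▸ hred) ?_ (by simp)
      change FreeGroup.IsReduced [z, y]
      rw [FreeGroup.isReduced_cons_cons]
      exact ⟨hc, FreeGroup.IsReduced.singleton⟩
    rw [hmk, FreeGroup.toWord_mk, h1.reduce_eq, hW]
    cases W with
    | nil => exact absurd rfl hWne
    | cons a t => rfl
  · push Not at hc
    have h2 : y = (z.1, !z.2) := by
      ext1
      · exact hc.1.symm
      · simpa using (Bool.eq_not_of_ne (Ne.symm hc.2))
    have h3 : FreeGroup.mk (W ++ [z] ++ [y]) = FreeGroup.mk W := by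
      rw [h2, List.append_assoc]
      apply FreeGroup.Red.exact.2
      refine ⟨W, ?_, Relation.ReflTransGen.refl⟩
      have h4 : FreeGroup.Red.Step (W ++ (z.1, z.2) :: (z.1, !z.2) :: []) (W ++ []) :=
        FreeGroup.Red.Step.not
      rw [List.append_nil] at h4
      exact Relation.ReflTransGen.single h4
    rw [hmk, h3, FreeGroup.toWord_mk, hWred.reduce_eq, hW, hheadW]

theorem head_mul899 (l : List (Z N)) : ∀ h : FreeGroup (Fin N), l.length < h.toWord.length →
    (h * FreeGroup.mk l).toWord.head? = h.toWord.head? := by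
  induction l with
  | nil =>
    intro h _
    rw [← FreeGroup.one_eq_mk, mul_one]
  | cons y l ih =>
    intro h hl
    simp only [List.length_cons] at hl
    have h1 : FreeGroup.mk (y :: l) = FreeGroup.mk [y] * FreeGroup.mk l := by
      rw [FreeGroup.mul_mk]
      rfl
    have h2 : h.toWord.length ≤ (h * FreeGroup.mk [y]).toWord.length + 1 := by
      have h3 := FreeGroup.norm_mul_le (h * FreeGroup.mk [y]) (FreeGroup.mk [y])⁻¹
      rw [mul_inv_cancel_right, FreeGroup.norm_inv_eq] at h3
      have h4 : (FreeGroup.mk [y]).norm ≤ 1 := FreeGroup.norm_mk_le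
      unfold FreeGroup.norm at h3 h4
      omega
    rw [h1, ← mul_assoc, ih _ (by omega)]
    exact head_one899 h y (by omega)

theorem head_stable899 (V : FreeGroup (Fin N)) (hV : V ≠ 1) (h r : FreeGroup (Fin N)) :
    ∀ᶠ k : ℕ in Filter.atTop, (h * V ^ k * r).toWord.head? = (h * V ^ k).toWord.head? := by
  have hinj : Function.Injective fun k : ℕ => (h * V ^ k).toWord := by
    have h1 := injective_pow_iff_not_isOfFinOrder.2 (not_isOfFinOrder_of_isMulTorsionFree hV)
    intro a b hab
    exact h1 (mul_left_cancel (FreeGroup.toWord_injective hab))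
  have hfin : {k : ℕ | (h * V ^ k).toWord.length ≤ r.toWord.length}.Finite :=
    (List.finite_length_le (Z N) r.toWord.length).preimage hinj.injOn
  have h2 := hfin.eventually_cofinite_notMem
  rw [Nat.cofinite_eq_atTop] at h2
  filter_upwards [h2] with k hk
  have h3 : r.toWord.length < (h * V ^ k).toWord.length := by
    simpa using hk
  have h4 := head_mul899 r.toWord (h * V ^ k) h3
  rwa [FreeGroup.mk_toWord] at h4

theorem tight899 (L : List (Z N)) (hL : FreeGroup.IsCyclicallyReduced L) : Tight L := by
  intro t ht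
  unfold turns at ht
  obtain ⟨i, hi, rfl⟩ := List.mem_iff_getElem.1 ht
  simp only [List.length_zip, List.length_map, List.length_rotate, min_self] at hi
  rw [List.getElem_zip]
  simp only [List.getElem_map, List.getElem_rotate]
  intro heq
  have h1 : (L[i]).1 = (L[(i + 1) % L.length]'(Nat.mod_lt _ (by omega))).1 := by
    rw [← heq]
    rfl
  have h2 : (!(L[i]).2) = (L[(i + 1) % L.length]'(Nat.mod_lt _ (by omega))).2 := by
    rw [← heq]
    rfl
  have h3 : (L[i]).2 = (L[(i + 1) % L.length]'(Nat.mod_lt _ (by omega))).2 := by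
    rcases Nat.lt_or_ge (i + 1) L.length with h | h
    · have hmod : (i + 1) % L.length = i + 1 := Nat.mod_eq_of_lt h
      simp only [hmod] at h1 ⊢
      have h4 := List.isChain_iff_getElem.1 hL.1 i (by omega)
      exact h4 h1
    · have hi' : i + 1 = L.length := by omega
      have hmod : (i + 1) % L.length = 0 := by rw [hi', Nat.mod_self]
      simp only [hmod] at h1 ⊢
      refine hL.2 _ ?_ _ ?_ h1
      · rw [Option.mem_def, List.getLast?_eq_getElem?]
        have : L.length - 1 = i := by omega
        rw [this, List.getElem?_eq_getElem hi]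
      · rw [Option.mem_def, List.head?_eq_getElem?, List.getElem?_eq_getElem (by omega)]
  rw [← h3] at h2
  simp at h2

/-- TO PROVE: the half-space of the letter `x` of the basis `φ(x_i)` is crossed by at most `|u|` translates of
the axis of `w ~ φ(u)`. First: for `w = p * φ u * p⁻¹` the map `g<w> ↦ (φ.symm (g*p))<u>` is a bijection that
turns `Dset (c ∘ φ.symm) w` into `Dset c u`; similarly reduce `u` to its cyclic reduction `u₀ = mk L`
(`FreeGroup` has `CyclicallyReduced`; `|u₀| ≤ |u|`), `L` tight. Then by `ends_tri` (vertex 1) a coset in the set is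
the coset of `(mk (L.take (i+1)))⁻¹` for a turn `i`, so there are at most `L.length` of them. -/
theorem half_count (u w : FreeGroup (Fin N)) (hu : u ≠ 1)
    (φ : FreeGroup (Fin N) ≃* FreeGroup (Fin N)) (hw : IsConj (φ u) w) (x : Z N) :
    (Dset (fun g => decide ((φ.symm g).toWord.head? = some x)) w).Finite ∧
    (Dset (fun g => decide ((φ.symm g).toWord.head? = some x)) w).ncard ≤ u.toWord.length := by
  classical
  obtain ⟨p, hp⟩ := isConj_iff.1 hw
  set L : List (Z N) := FreeGroup.reduceCyclically u.toWord with hLdef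
  set q : FreeGroup (Fin N) :=
    FreeGroup.mk (FreeGroup.reduceCyclically.conjugator u.toWord) with hqdef
  have hdec := FreeGroup.reduceCyclically.conj_conjugator_reduceCyclically u.toWord
  have huq : u = q * FreeGroup.mk L * q⁻¹ := by
    rw [hqdef, hLdef, FreeGroup.inv_mk, FreeGroup.mul_mk, FreeGroup.mul_mk, hdec,
      FreeGroup.mk_toWord]
  have hlen : L.length ≤ u.toWord.length := by
    have := congrArg List.length hdec
    simp only [List.length_append] at this
    rw [hLdef]
    omega
  have hV : FreeGroup.mk L ≠ 1 := by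
    intro h0
    rw [h0, mul_one, mul_inv_cancel] at huq
    exact hu huq
  have hne : L ≠ [] := by
    intro h0
    rw [h0] at hV
    exact hV FreeGroup.one_eq_mk.symm
  have ht : Tight L :=
    tight899 L (FreeGroup.reduceCyclically.isCyclicallyReduced FreeGroup.isReduced_toWord)
  set V : FreeGroup (Fin N) := FreeGroup.mk L with hVdef
  have hwV : w = p * φ q * φ V * (φ q)⁻¹ * p⁻¹ := by
    rw [← hp, huq, map_mul, map_mul, map_inv]
    group
  have hlt : (turns L).length = L.length := by
    simp [turns]
  let G : ℕ → FreeGroup (Fin N) ⧸ Subgroup.zpowers w := fun i =>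
    QuotientGroup.mk (φ (FreeGroup.mk (L.take (i + 1)))⁻¹ * (φ q)⁻¹ * p⁻¹)
  have hsub : Dset (fun g => decide ((φ.symm g).toWord.head? = some x)) w ⊆
      (((Finset.range L.length).image G : Finset _) : Set _) := by
    rintro γ ⟨g, rfl, s, hs1, hs2⟩
    set h : FreeGroup (Fin N) := φ.symm (g * p) * q with hh
    set r : FreeGroup (Fin N) := q⁻¹ * φ.symm p⁻¹ with hr
    have hwk : ∀ k : ℕ, w ^ k = p * φ q * (φ V) ^ k * (φ q)⁻¹ * p⁻¹ := by
      intro k
      have h1 : w = (p * φ q) * φ V * (p * φ q)⁻¹ := by
        rw [hwV]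
        group
      rw [h1, conj_pow]
      group
    have e1 : ∀ k : ℕ, φ.symm (g * w ^ k) = h * V ^ k * r := by
      intro k
      rw [hwk, hh, hr]
      simp only [map_mul, map_inv, map_pow, MulEquiv.symm_apply_apply]
      group
    have e2 : ∀ k : ℕ, φ.symm (g * (w ^ k)⁻¹) = h * (V⁻¹) ^ k * r := by
      intro k
      rw [hwk, hh, hr]
      simp only [map_mul, map_inv, map_pow, MulEquiv.symm_apply_apply, mul_inv_rev, inv_inv,
        inv_pow]
      group
    rcases ends_tri L hne ht h with ⟨i, hi, m, hm, -, -⟩ | ⟨z, hz1, hz2⟩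
    · rw [hlt] at hi
      refine Finset.mem_coe.2 (Finset.mem_image.2 ⟨i, Finset.mem_range.2 hi, ?_⟩)
      change QuotientGroup.mk _ = QuotientGroup.mk g
      rw [QuotientGroup.eq]
      have h1 : h = (FreeGroup.mk (L.take (i + 1)))⁻¹ * (V ^ m)⁻¹ := by
        have h2 : h * (V ^ m * FreeGroup.mk (L.take (i + 1))) = 1 := by
          rw [← mul_assoc]
          exact hm
        rw [mul_eq_one_iff_eq_inv.1 h2, mul_inv_rev]
      have h3 : g = φ h * (φ q)⁻¹ * p⁻¹ := by
        rw [hh, map_mul, MulEquiv.apply_symm_apply]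
        group
      have h4 : (φ (FreeGroup.mk (L.take (i + 1)))⁻¹ * (φ q)⁻¹ * p⁻¹)⁻¹ * g = w ^ (-m) := by
        have h5 : w = (p * φ q) * φ V * (p * φ q)⁻¹ := by
          rw [hwV]
          group
        rw [h5, conj_zpow, h3, h1, map_mul, map_inv, map_inv, map_zpow]
        group
      rw [h4]
      exact ⟨-m, rfl⟩
    · exfalso
      have a1 := head_stable899 V hV h r
      have a2 := head_stable899 V⁻¹ (inv_ne_one.2 hV) h r
      obtain ⟨k, b1, b2, b3, b4, b5, b6⟩ := (hs1.and (hs2.and (hz1.and (hz2.and
        (a1.and a2))))).exists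
      simp only [e1, b5] at b1
      simp only [e2, b6] at b2
      rw [show h * V ^ k ∈ St z ↔ (h * V ^ k).toWord.head? = some z from Iff.rfl] at b3
      rw [← inv_pow, show h * V⁻¹ ^ k ∈ St z ↔ (h * V⁻¹ ^ k).toWord.head? = some z from
        Iff.rfl] at b4
      rw [b3] at b1
      rw [b4, b1] at b2
      cases s <;> simp at b2
  refine ⟨(Finset.finite_toSet _).subset hsub, ?_⟩
  calc (Dset (fun g => decide ((φ.symm g).toWord.head? = some x)) w).ncard
      ≤ (((Finset.range L.length).image G : Finset _) : Set _).ncard :=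
        Set.ncard_le_ncard hsub (Finset.finite_toSet _)
    _ = ((Finset.range L.length).image G).card := Set.ncard_coe_finset _
    _ ≤ L.length := (Finset.card_image_le).trans (by simp)
    _ ≤ u.toWord.length := hlen


end MC

end PW
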