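import Pool.Agent.Helper693.PW.MCDefs
import Pool.Agent.Helper419.PW.Red

set_option autoImplicit false

namespace PW

namespace MC

variable {N : ℕ}

/-- Hint: write `a = p * a₀ * p⁻¹` with `a₀` cyclically reduced, `x` = first letter of `a₀`, `g = p⁻¹`:
`g * a ^ k = a₀ ^ k * p⁻¹` starts with `x` for `k` large, `g * (a ^ k)⁻¹ = a₀ ^ (-k) * p⁻¹` starts with the inverse of the
last letter of `a₀`, which is not `x`. -/
theorem half_sep (a : FreeGroup (Fin N)) (ha : a ≠ 1) :
    ∃ (x : Z N) (g : FreeGroup (Fin N)), (∀ᶠ k : ℕ in Filter.atTop, g * a ^ k ∈ St x) ∧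
      (∀ᶠ k : ℕ in Filter.atTop, g * (a ^ k)⁻¹ ∉ St x) := by
  set W := a.toWord with hWdef
  set P := FreeGroup.reduceCyclically.conjugator W with hP
  set R := FreeGroup.reduceCyclically W with hRdef
  have hRed : FreeGroup.IsReduced W := FreeGroup.isReduced_toWord
  have hcyc : FreeGroup.IsCyclicallyReduced R := FreeGroup.reduceCyclically.isCyclicallyReduced hRed
  have hconj : P ++ R ++ FreeGroup.invRev P = W :=
    FreeGroup.reduceCyclically.conj_conjugator_reduceCyclically W
  have haW : a = FreeGroup.mk W := (FreeGroup.mk_toWord (x := a)).symm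
  have hR : R ≠ [] := by
    intro h
    apply ha
    rw [haW, ← hconj, h, List.append_nil, ← FreeGroup.mul_mk, ← FreeGroup.inv_mk]
    exact mul_inv_cancel _
  have hpow : ∀ k : ℕ, k ≠ 0 → (a ^ k).toWord =
      P ++ (List.replicate k R).flatten ++ FreeGroup.invRev P := by
    intro k hk
    rw [FreeGroup.toWord_pow, FreeGroup.reduceCyclically.reduce_flatten_replicate hRed k, if_neg hk]
  obtain ⟨x, T, hxT⟩ : ∃ x T, R = x :: T := by
    cases hR' : R with
    | nil => exact absurd hR' hR
    | cons x T => exact ⟨x, T, rfl⟩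
  refine ⟨x, (FreeGroup.mk P)⁻¹, ?_, ?_⟩
  · filter_upwards [Filter.eventually_ge_atTop 1] with k hk
    have hk0 : k ≠ 0 := by omega
    have hred : FreeGroup.IsReduced ((List.replicate k R).flatten ++ FreeGroup.invRev P) := by
      have h1 : FreeGroup.IsReduced (a ^ k).toWord := FreeGroup.isReduced_toWord
      rw [hpow k hk0] at h1
      exact h1.pwSub ⟨P, [], by simp⟩
    have h2 : (FreeGroup.mk P)⁻¹ * a ^ k =
        FreeGroup.mk ((List.replicate k R).flatten ++ FreeGroup.invRev P) := by
      rw [← FreeGroup.mk_toWord (x := a ^ k), hpow k hk0, List.append_assoc, ← FreeGroup.mul_mk]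
      group
    show ((FreeGroup.mk P)⁻¹ * a ^ k).toWord.head? = some x
    rw [h2, FreeGroup.toWord_mk, hred.reduce_eq]
    obtain ⟨m, rfl⟩ := Nat.exists_eq_add_one_of_ne_zero hk0
    rw [List.replicate_succ, hxT]
    simp
  · filter_upwards [Filter.eventually_ge_atTop 1] with k hk
    have hk0 : k ≠ 0 := by omega
    have hinv : (a ^ k)⁻¹.toWord = P ++ (FreeGroup.invRev (List.replicate k R).flatten ++
        FreeGroup.invRev P) := by
      rw [FreeGroup.toWord_inv, hpow k hk0, FreeGroup.invRev_append, FreeGroup.invRev_append,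
        FreeGroup.invRev_invRev]
    have hred : FreeGroup.IsReduced (FreeGroup.invRev (List.replicate k R).flatten ++
        FreeGroup.invRev P) := by
      have h1 : FreeGroup.IsReduced (a ^ k)⁻¹.toWord := FreeGroup.isReduced_toWord
      rw [hinv] at h1
      exact h1.pwSub ⟨P, [], by simp⟩
    have h2 : (FreeGroup.mk P)⁻¹ * (a ^ k)⁻¹ =
        FreeGroup.mk (FreeGroup.invRev (List.replicate k R).flatten ++ FreeGroup.invRev P) := by
      rw [← FreeGroup.mk_toWord (x := (a ^ k)⁻¹), hinv, ← FreeGroup.mul_mk]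
      group
    intro hmem
    have hmem' : ((FreeGroup.mk P)⁻¹ * (a ^ k)⁻¹).toWord.head? = some x := hmem
    rw [h2, FreeGroup.toWord_mk, hred.reduce_eq] at hmem'
    obtain ⟨m, rfl⟩ := Nat.exists_eq_add_one_of_ne_zero hk0
    obtain ⟨S, y, hSy⟩ : ∃ S y, R = S ++ [y] := by
      rcases List.eq_nil_or_concat R with h | ⟨S, y, h⟩
      · exact absurd h hR
      · exact ⟨S, y, by simpa using h⟩
    have hc := hcyc.2 y (by rw [hSy]; simp) x (by rw [hxT]; simp)
    rw [List.replicate_succ', List.flatten_concat, hSy, FreeGroup.invRev_append,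
      FreeGroup.invRev_append] at hmem'
    simp [FreeGroup.invRev] at hmem'
    rw [← hmem'] at hc
    simp at hc

end MC

end PW
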