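import Pool.Agent.Helper693.PW.MCDefs
import Pool.Agent.Helper419.PW.Red

set_option autoImplicit false

namespace PW

namespace MC

variable {N : ℕ}

theorem half_off_snoc (L : List (Z N)) (hL : FreeGroup.IsReduced L) (z : Z N)
    (h2 : 2 ≤ L.length) :
    (FreeGroup.reduce (L ++ [z])).head? = L.head? ∧
      L.length - 1 ≤ (FreeGroup.reduce (L ++ [z])).length := by
  rcases List.eq_nil_or_concat L with h | ⟨L', a, hLa⟩
  · simp [h] at h2
  rw [List.concat_eq_append] at hLa
  subst hLa
  have hL'ne : L' ≠ [] := by
    intro h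
    simp [h] at h2
  have hhead : (L' ++ [a]).head? = L'.head? := by
    cases L' with
    | nil => exact absurd rfl hL'ne
    | cons b l => simp
  by_cases hc : a.1 = z.1 ∧ a.2 = !z.2
  · have hL'red : FreeGroup.IsReduced L' := hL.pwSub ⟨[], [a], by simp⟩
    have hstep : FreeGroup.Red.Step (L' ++ [a] ++ [z]) L' := by
      obtain ⟨ha1, ha2⟩ := hc
      have ha : a = (z.1, !z.2) := Prod.ext ha1 ha2
      have hz : z = (z.1, z.2) := rfl
      have h3 := @FreeGroup.Red.Step.not_rev (Fin N) L' [] z.1 z.2
      rw [ha]
      simpa using h3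
    have hr : FreeGroup.reduce (L' ++ [a] ++ [z]) = L' := by
      rw [FreeGroup.reduce.Step.eq hstep, hL'red.reduce_eq]
    rw [hr]
    refine ⟨hhead.symm, by simp⟩
  · have hr : FreeGroup.IsReduced (L' ++ [a] ++ [z]) := by
      refine FreeGroup.IsReduced.append_overlap hL ?_ (by simp)
      rw [List.singleton_append, FreeGroup.isReduced_cons_cons]
      refine ⟨?_, FreeGroup.IsReduced.singleton⟩
      intro h1
      by_contra h3
      apply hc
      refine ⟨h1, ?_⟩
      revert h3
      cases a.2 <;> cases z.2 <;> simp
    rw [hr.reduce_eq]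
    refine ⟨?_, by simp⟩
    cases L' with
    | nil => exact absurd rfl hL'ne
    | cons b l => simp

theorem half_off_head (t : List (Z N)) : ∀ L : List (Z N), FreeGroup.IsReduced L →
    t.length < L.length → (FreeGroup.reduce (L ++ t)).head? = L.head? := by
  induction t with
  | nil =>
    intro L hL _
    rw [List.append_nil, hL.reduce_eq]
  | cons z t ih =>
    intro L hL hlt
    rw [List.length_cons] at hlt
    obtain ⟨h1, h2⟩ := half_off_snoc L hL z (by omega)
    have hM : FreeGroup.IsReduced (FreeGroup.reduce (L ++ [z])) :=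
      FreeGroup.isReduced_iff_reduce_eq.2 FreeGroup.reduce.idem
    have h3 := ih _ hM (by omega)
    rw [← h1, ← h3]
    congr 1
    have e : L ++ z :: t = (L ++ [z]) ++ t := by simp
    rw [e, ← FreeGroup.reduce_append_reduce_reduce (L₁ := L ++ [z]),
      ← FreeGroup.reduce_append_reduce_reduce (L₁ := FreeGroup.reduce (L ++ [z])) (L₂ := t),
      FreeGroup.reduce.idem]

/-- Hint: for a fixed `t`, the first letter of `h` and of `h * t` agree as soon as `|h| > |t|`; so
`{g | the colours of g and g * lt z differ}` is finite for each of the finitely many `z` (the elements of bounded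
length are finitely many). Take all prefixes. -/
theorem half_off (φ : FreeGroup (Fin N) ≃* FreeGroup (Fin N)) (x : Z N) :
    ∃ H : Finset (FreeGroup (Fin N)), (1 : FreeGroup (Fin N)) ∈ H ∧
      (∀ g ∈ H, ∀ n : ℕ, FreeGroup.mk (g.toWord.take n) ∈ H) ∧
      ∀ (g : FreeGroup (Fin N)) (z : Z N), g ∉ H → g * lt z ∉ H →
        ((φ.symm g).toWord.head? = some x ↔ (φ.symm (g * lt z)).toWord.head? = some x) := by
  classical
  obtain ⟨M, hM⟩ : ∃ M : ℕ, ∀ z : Z N, (φ.symm (lt z)).toWord.length ≤ M := by
    refine ⟨Finset.univ.sup (fun z : Z N => (φ.symm (lt z)).toWord.length), fun z => ?_⟩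
    exact Finset.le_sup (f := fun z : Z N => (φ.symm (lt z)).toWord.length) (Finset.mem_univ z)
  have hfin : {g : FreeGroup (Fin N) | (φ.symm g).toWord.length ≤ M}.Finite := by
    have h1 : {l : List (Z N) | l.length ≤ M}.Finite := List.finite_length_le (Z N) M
    refine Set.Finite.of_finite_image (f := fun g => (φ.symm g).toWord) (h1.subset ?_) ?_
    · rintro _ ⟨g, hg, rfl⟩
      exact hg
    · intro a _ b _ hab
      exact φ.symm.injective (FreeGroup.toWord_injective hab)
  let P : FreeGroup (Fin N) → Finset (FreeGroup (Fin N)) := fun b =>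
    (Finset.range (b.toWord.length + 1)).image (fun m => FreeGroup.mk (b.toWord.take m))
  refine ⟨insert 1 (hfin.toFinset.biUnion P), Finset.mem_insert_self _ _, ?_, ?_⟩
  · intro g hg n
    rw [Finset.mem_insert] at hg
    rcases hg with rfl | hg
    · rw [FreeGroup.toWord_one, List.take_nil]
      exact Finset.mem_insert_self _ _
    · rw [Finset.mem_biUnion] at hg
      obtain ⟨b, hb, hg⟩ := hg
      simp only [P, Finset.mem_image, Finset.mem_range] at hg
      obtain ⟨m, hm, rfl⟩ := hg
      have hred : FreeGroup.IsReduced (b.toWord.take m) :=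
        FreeGroup.isReduced_toWord.pwSub (List.take_prefix m b.toWord).isInfix
      rw [FreeGroup.toWord_mk, hred.reduce_eq, List.take_take]
      apply Finset.mem_insert_of_mem
      rw [Finset.mem_biUnion]
      refine ⟨b, hb, ?_⟩
      simp only [P, Finset.mem_image, Finset.mem_range]
      exact ⟨min n m, by omega, rfl⟩
  · intro g z hg _
    have hgB : M < (φ.symm g).toWord.length := by
      by_contra hle
      apply hg
      apply Finset.mem_insert_of_mem
      rw [Finset.mem_biUnion]
      refine ⟨g, ?_, ?_⟩
      · rw [Set.Finite.mem_toFinset]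
        exact not_lt.1 hle
      · simp only [P, Finset.mem_image, Finset.mem_range]
        exact ⟨g.toWord.length, by omega, by rw [List.take_length]; exact FreeGroup.mk_toWord⟩
    have h1 : (φ.symm (g * lt z)).toWord.head? = (φ.symm g).toWord.head? := by
      rw [map_mul, FreeGroup.toWord_mul]
      exact half_off_head _ _ FreeGroup.isReduced_toWord (lt_of_le_of_lt (hM z) hgB)
    rw [h1]


end MC

end PW
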