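import Pool.Agent.Helper693.PW.MCDefs

set_option autoImplicit false

namespace PW

namespace MC

variable {N : ℕ}

theorem h8_ne_inv {x z : Z N} (h : x ≠ inv z) (h1 : x.1 = z.1) : x.2 = z.2 := by
  by_contra h2
  apply h
  have h3 : x.2 = !z.2 := by cases hx : x.2 <;> cases hz : z.2 <;> simp_all
  exact Prod.ext (show x.1 = (inv z).1 from h1) (show x.2 = (inv z).2 from h3)

theorem h8_inv_inv (z : Z N) : inv (inv z) = z := by
  unfold inv
  simp

theorem h8_lt_mul_inv (z : Z N) : lt z * lt (inv z) = 1 := by
  unfold lt inv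
  rw [FreeGroup.mul_mk]
  have h1 : FreeGroup.mk ([z] ++ [(z.1, !z.2)]) = FreeGroup.mk ([] : List (Z N)) := by
    apply Quot.sound
    have := @FreeGroup.Red.Step.not (Fin N) [] [] z.1 z.2
    simpa using this
  rw [h1]
  rfl

theorem h8_lt_inv_mul (z : Z N) : lt (inv z) * lt z = 1 := by
  have := h8_lt_mul_inv (inv z)
  rwa [h8_inv_inv] at this

theorem h8_toWord_lt (z : Z N) : (lt z).toWord = [z] := by
  unfold lt
  rw [FreeGroup.toWord_mk, FreeGroup.reduce_singleton]

theorem h8_append (u v : FreeGroup (Fin N)) (h : ∀ x ∈ u.toWord.getLast?, ∀ y ∈ v.toWord.head?,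
    x ≠ inv y) : (u * v).toWord = u.toWord ++ v.toWord := by
  rw [FreeGroup.toWord_mul]
  apply FreeGroup.IsReduced.reduce_eq
  apply List.IsChain.append FreeGroup.isReduced_toWord FreeGroup.isReduced_toWord
  intro x hx y hy h1
  exact h8_ne_inv (h x hx y hy) h1

theorem h8_cancel (u : FreeGroup (Fin N)) (L : List (Z N)) (z : Z N)
    (h : u.toWord = L ++ [inv z]) : (u * lt z).toWord = L := by
  have hu : u = FreeGroup.mk L * lt (inv z) := by
    rw [← FreeGroup.mk_toWord (x := u), h]
    rfl
  have hr : FreeGroup.IsReduced L := by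
    have h1 : FreeGroup.IsReduced (L ++ [inv z]) := by
      rw [← h]
      exact FreeGroup.isReduced_toWord
    exact List.IsChain.left_of_append h1
  rw [hu, mul_assoc, h8_lt_inv_mul, mul_one, FreeGroup.toWord_mk, hr.reduce_eq]

/-- Beyond a vertex `v` none of whose extensions in direction `z` lies in `H`, a colouring which is constant
off `H` is constant: by induction on the length of the reduced word of `v⁻¹ * h`. -/
theorem const_beyond (c : FreeGroup (Fin N) → Bool) (H : Finset (FreeGroup (Fin N)))
    (hc : ∀ (g : FreeGroup (Fin N)) (z : Z N), g ∉ H → g * lt z ∉ H → c g = c (g * lt z))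
    (v : FreeGroup (Fin N)) (z : Z N) (hz : ∀ h : FreeGroup (Fin N), v⁻¹ * h ∈ St z → h ∉ H) :
    ∃ s : Bool, ∀ h : FreeGroup (Fin N), v⁻¹ * h ∈ St z → c h = s := by
  refine ⟨c (v * lt z), ?_⟩
  have key : ∀ n : ℕ, ∀ h : FreeGroup (Fin N), v⁻¹ * h ∈ St z → (v⁻¹ * h).toWord.length = n + 1 →
      c h = c (v * lt z) := by
    intro n
    induction n with
    | zero =>
      intro h hh hlen
      have h1 : (v⁻¹ * h).toWord.head? = some z := hh
      obtain ⟨a, ha⟩ := List.length_eq_one_iff.mp hlen
      rw [ha] at h1
      have h2 : a = z := by simpa using h1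
      have h3 : v⁻¹ * h = lt z := by
        apply FreeGroup.toWord_injective
        rw [ha, h8_toWord_lt, h2]
      have h4 : h = v * lt z := by rw [← h3]; group
      rw [h4]
    | succ n ih =>
      intro h hh hlen
      have h1 : (v⁻¹ * h).toWord.head? = some z := hh
      have hne : (v⁻¹ * h).toWord ≠ [] := by
        intro h2
        rw [h2] at hlen
        simp at hlen
      obtain ⟨L, y, hLy⟩ : ∃ (L : List (Z N)) (y : Z N), (v⁻¹ * h).toWord = L ++ [y] :=
        ⟨_, _, (List.dropLast_append_getLast hne).symm⟩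
      have hLlen : L.length = n + 1 := by
        rw [hLy] at hlen
        simpa using hlen
      have hLne : L ≠ [] := by
        intro h2
        rw [h2] at hLlen
        simp at hLlen
      have hw : (v⁻¹ * (h * lt (inv y))).toWord = L := by
        rw [← mul_assoc]
        apply h8_cancel
        rw [h8_inv_inv]
        exact hLy
      have hst : v⁻¹ * (h * lt (inv y)) ∈ St z := by
        show (v⁻¹ * (h * lt (inv y))).toWord.head? = some z
        rw [hw]
        rw [hLy, List.head?_append_of_ne_nil _ hLne] at h1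
        exact h1
      have h5 := ih (h * lt (inv y)) hst (by rw [hw]; exact hLlen)
      have h6 := hc (h * lt (inv y)) y (hz _ hst) (by
        rw [mul_assoc, h8_lt_inv_mul, mul_one]
        exact hz h hh)
      rw [mul_assoc, h8_lt_inv_mul, mul_one] at h6
      rw [← h6]
      exact h5
  intro h hh
  have h1 : (v⁻¹ * h).toWord.head? = some z := hh
  have hpos : 0 < (v⁻¹ * h).toWord.length := by
    rw [List.length_pos_iff]
    intro h2
    rw [h2] at h1
    simp at h1
  exact key ((v⁻¹ * h).toWord.length - 1) h hh (by omega)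

/-- `v` longest in `H`, `z` not the inverse of the last letter of `v`: everything beyond `v` in the direction
`z` is longer than `v`, hence not in `H`. -/
theorem beyond_long (H : Finset (FreeGroup (Fin N))) (v : FreeGroup (Fin N))
    (hv : ∀ g ∈ H, g.toWord.length ≤ v.toWord.length) (z : Z N)
    (hz : v.toWord.getLast? ≠ some (inv z)) :
    ∀ h : FreeGroup (Fin N), v⁻¹ * h ∈ St z → h ∉ H := by
  intro h hh hH
  have h1 : (v⁻¹ * h).toWord.head? = some z := hh
  have h2 : (v * (v⁻¹ * h)).toWord = v.toWord ++ (v⁻¹ * h).toWord := by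
    apply h8_append
    intro x hx y hy hxy
    rw [h1] at hy
    have hy' : z = y := by simpa using hy
    apply hz
    rw [hy', ← hxy]
    exact hx
  rw [mul_inv_cancel_left] at h2
  have hpos : 0 < (v⁻¹ * h).toWord.length := by
    rw [List.length_pos_iff]
    intro h3
    rw [h3] at h1
    simp at h1
  have h3 := hv h hH
  rw [h2, List.length_append] at h3
  omega

/-- moving along an edge not at `v` does not change the direction seen from `v` -/
theorem dir_step (v g : FreeGroup (Fin N)) (z w : Z N) (h1 : v⁻¹ * g ∈ St w) (h2 : g * lt z ≠ v) :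
    v⁻¹ * (g * lt z) ∈ St w := by
  have hw : (v⁻¹ * g).toWord.head? = some w := h1
  rw [← mul_assoc]
  show (v⁻¹ * g * lt z).toWord.head? = some w
  have hne : (v⁻¹ * g).toWord ≠ [] := by
    intro h3
    rw [h3] at hw
    simp at hw
  by_cases hl : (v⁻¹ * g).toWord.getLast? = some (inv z)
  · obtain ⟨L, hL⟩ : ∃ L : List (Z N), (v⁻¹ * g).toWord = L ++ [inv z] := by
      refine ⟨(v⁻¹ * g).toWord.dropLast, ?_⟩
      rw [List.getLast?_eq_getLast_of_ne_nil hne] at hl
      have h4 := Option.some.inj hl
      conv_lhs => rw [← List.dropLast_append_getLast hne, h4]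
    have h5 := h8_cancel _ L z hL
    have hLne : L ≠ [] := by
      intro h6
      rw [h6] at h5
      have h7 := FreeGroup.toWord_eq_nil_iff.mp h5
      apply h2
      rw [mul_assoc] at h7
      have h8 := congrArg (fun t => v * t) h7
      simpa using h8
    rw [h5]
    rw [hL, List.head?_append_of_ne_nil _ hLne] at hw
    exact hw
  · rw [h8_append, List.head?_append_of_ne_nil _ hne]
    · exact hw
    · intro x hx y hy hxy
      rw [h8_toWord_lt] at hy
      have hy' : z = y := by simpa using hy
      apply hl
      rw [hy', ← hxy]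
      exact hx

theorem mem_St_lt (z : Z N) : lt z ∈ St z := by
  show (lt z).toWord.head? = some z
  rw [h8_toWord_lt]
  rfl

theorem exists_dir (h : FreeGroup (Fin N)) (hh : h ≠ 1) : ∃ z, h ∈ St z := by
  have hne : h.toWord ≠ [] := fun h1 => hh (FreeGroup.toWord_eq_nil_iff.mp h1)
  exact ⟨h.toWord.head hne, List.head?_eq_some_head hne⟩

theorem dir_unique (h : FreeGroup (Fin N)) (z w : Z N) (h1 : h ∈ St z) (h2 : h ∈ St w) : z = w := by
  have e1 : h.toWord.head? = some z := h1
  have e2 : h.toWord.head? = some w := h2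
  rw [e1] at e2
  exact Option.some.inj e2

theorem one_not_mem_St (z : Z N) : (1 : FreeGroup (Fin N)) ∉ St z := by
  intro h
  have e1 : (1 : FreeGroup (Fin N)).toWord.head? = some z := h
  rw [FreeGroup.toWord_one] at e1
  simp at e1



end MC

end PW
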