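import Pool.Agent.Helper693.PW.MCDefs

set_option autoImplicit false

namespace PW

namespace MC

variable {N : ℕ}

/-- turns stay inside the classes of `π` -/
theorem cap_blk (L : List (Z N)) (π : Z N → ℕ) (hp : ∀ t ∈ turns L, π t.1 = π t.2) (p : ℕ)
    (A : Finset (Z N)) (hA : ∀ x ∈ A, π x = p) : cap L A = tn L A (blk π p \ A) := by
  unfold cap tn
  refine List.countP_congr ?_
  intro t ht
  have h := hp t ht
  simp only [decide_eq_true_eq, Finset.mem_compl, Finset.mem_sdiff, blk, Finset.mem_filter,
    Finset.mem_univ, true_and]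
  constructor
  · rintro (⟨h1, h2⟩ | ⟨h1, h2⟩)
    · exact Or.inl ⟨h1, ⟨by rw [← h]; exact hA _ h1, h2⟩⟩
    · exact Or.inr ⟨⟨by rw [h]; exact hA _ h2, h1⟩, h2⟩
  · rintro (⟨h1, h2⟩ | ⟨h1, h2⟩)
    · exact Or.inl ⟨h1, h2.2⟩
    · exact Or.inr ⟨h1.2, h2⟩

theorem tn_union (L : List (Z N)) (A B C : Finset (Z N)) (h1 : Disjoint A B) (h2 : Disjoint A C)
    (h3 : Disjoint B C) : tn L A (B ∪ C) = tn L A B + tn L A C := by
  unfold tn
  generalize turns L = l
  induction l with
  | nil => simp
  | cons t l ih =>
    rw [List.countP_cons, List.countP_cons, List.countP_cons, ih]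
    have e : (if decide ((t.1 ∈ A ∧ t.2 ∈ B ∪ C) ∨ (t.1 ∈ B ∪ C ∧ t.2 ∈ A)) = true then 1 else 0) =
        (if decide ((t.1 ∈ A ∧ t.2 ∈ B) ∨ (t.1 ∈ B ∧ t.2 ∈ A)) = true then 1 else 0) +
        (if decide ((t.1 ∈ A ∧ t.2 ∈ C) ∨ (t.1 ∈ C ∧ t.2 ∈ A)) = true then 1 else 0) := by
      have d1 := fun x => (Finset.disjoint_left.1 h1 : ∀ ⦃a⦄, a ∈ A → a ∉ B) (a := x)
      have d2 := fun x => (Finset.disjoint_left.1 h2 : ∀ ⦃a⦄, a ∈ A → a ∉ C) (a := x)
      have d3 := fun x => (Finset.disjoint_left.1 h3 : ∀ ⦃a⦄, a ∈ B → a ∉ C) (a := x)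
      have a1 := d1 t.1
      have a2 := d1 t.2
      have b1 := d2 t.1
      have b2 := d2 t.2
      have c1 := d3 t.1
      have c2 := d3 t.2
      simp only [decide_eq_true_eq, Finset.mem_union]
      by_cases p1 : t.1 ∈ A <;> by_cases p2 : t.2 ∈ A <;> by_cases q1 : t.1 ∈ B <;>
        by_cases q2 : t.2 ∈ B <;> by_cases r1 : t.1 ∈ C <;> by_cases r2 : t.2 ∈ C <;>
        simp_all
    rw [e]
    ring

theorem countP_fst_zip {α β : Type*} (p : α → Bool) (l : List α) (m : List β)
    (h : l.length = m.length) : (List.zip l m).countP (fun t => p t.1) = l.countP p := by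
  induction l generalizing m with
  | nil => simp
  | cons x l ih =>
    cases m with
    | nil => simp at h
    | cons y m =>
      rw [List.zip_cons_cons, List.countP_cons, List.countP_cons, ih m (by simpa using h)]

theorem countP_snd_zip {α β : Type*} (p : β → Bool) (l : List α) (m : List β)
    (h : l.length = m.length) : (List.zip l m).countP (fun t => p t.2) = m.countP p := by
  induction l generalizing m with
  | nil =>
    cases m with
    | nil => simp
    | cons y m => simp at h
  | cons x l ih =>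
    cases m with
    | nil => simp at h
    | cons y m =>
      rw [List.zip_cons_cons, List.countP_cons, List.countP_cons, ih m (by simpa using h)]

theorem turns_count (L : List (Z N)) (b : Z N) :
    (turns L).countP (fun t => t.1 = b) + (turns L).countP (fun t => t.2 = b) = deg L b.1 := by
  unfold turns
  have h1 := countP_fst_zip (fun x : Z N => decide (x = b)) (L.map inv) (L.rotate 1) (by simp)
  have h2 := countP_snd_zip (fun x : Z N => decide (x = b)) (L.map inv) (L.rotate 1) (by simp)
  have h3 : (L.rotate 1).countP (fun x : Z N => decide (x = b)) =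
      L.countP (fun x : Z N => decide (x = b)) := (List.rotate_perm L 1).countP_eq _
  rw [h1, h2, h3, List.countP_map]
  clear h1 h2 h3
  unfold deg
  induction L with
  | nil => simp
  | cons x l ih =>
    rw [List.countP_cons, List.countP_cons, List.countP_cons]
    rw [← ih]
    have e : (if ((fun x : Z N => decide (x = b)) ∘ inv) x = true then 1 else 0) +
        (if decide (x = b) = true then 1 else 0) = if decide (x.1 = b.1) = true then 1 else 0 := by
      obtain ⟨i, e⟩ := x
      obtain ⟨j, e'⟩ := b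
      simp only [Function.comp, inv, decide_eq_true_eq, Prod.mk.injEq]
      by_cases hij : i = j <;> cases e <;> cases e' <;> simp [hij]
    omega

/-- a turn joining the half-edge `b` to another one comes from exactly one occurrence of `b` or `inv b` -/
theorem cap_singleton (L : List (Z N)) (ht : Tight L) (b : Z N) : cap L {b} = deg L b.1 := by
  rw [← turns_count]
  unfold cap tn Tight at *
  generalize turns L = l at *
  induction l with
  | nil => simp
  | cons t l ih =>
    have ht' := ht t (by simp)
    rw [List.countP_cons, List.countP_cons, List.countP_cons, ih (fun t' h' => ht t' (by simp [h']))]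
    have e : (if decide ((t.1 ∈ ({b} : Finset (Z N)) ∧ t.2 ∈ ({b} : Finset (Z N))ᶜ) ∨
        (t.1 ∈ ({b} : Finset (Z N))ᶜ ∧ t.2 ∈ ({b} : Finset (Z N)))) = true then 1 else 0) =
        (if decide (t.1 = b) = true then 1 else 0) + (if decide (t.2 = b) = true then 1 else 0) := by
      simp only [decide_eq_true_eq, Finset.mem_compl, Finset.mem_singleton]
      by_cases p1 : t.1 = b <;> by_cases p2 : t.2 = b
      · exact absurd (p1.trans p2.symm) ht'
      · simp [p1, p2]
      · simp [p1, p2]
      · simp [p1, p2]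
    rw [e]
    ring

theorem tn_le_deg (L : List (Z N)) (A : Finset (Z N)) (b : Z N) : tn L A {b} ≤ deg L b.1 := by
  rw [← turns_count]
  unfold tn
  generalize turns L = l
  induction l with
  | nil => simp
  | cons t l ih =>
    rw [List.countP_cons, List.countP_cons, List.countP_cons]
    have e : (if decide ((t.1 ∈ A ∧ t.2 ∈ ({b} : Finset (Z N))) ∨
        (t.1 ∈ ({b} : Finset (Z N)) ∧ t.2 ∈ A)) = true then 1 else 0) ≤
        (if decide (t.1 = b) = true then 1 else 0) + (if decide (t.2 = b) = true then 1 else 0) := by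
      simp only [decide_eq_true_eq, Finset.mem_singleton]
      by_cases p1 : t.1 = b <;> by_cases p2 : t.2 = b <;> by_cases q1 : t.1 ∈ A <;>
        by_cases q2 : t.2 ∈ A <;> simp [p1, p2, q1, q2] <;> simp_all
    omega

/-- turns stay inside the classes of `π`, second form -/
theorem tn_blk (L : List (Z N)) (π : Z N → ℕ) (hp : ∀ t ∈ turns L, π t.1 = π t.2) (p : ℕ)
    (A B : Finset (Z N)) (hA : ∀ x ∈ A, π x = p) : tn L A B = tn L A (B ∩ blk π p) := by
  unfold tn
  refine List.countP_congr ?_
  intro t ht
  have h := hp t ht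
  simp only [decide_eq_true_eq, Finset.mem_inter, blk, Finset.mem_filter,
    Finset.mem_univ, true_and]
  constructor
  · rintro (⟨h1, h2⟩ | ⟨h1, h2⟩)
    · exact Or.inl ⟨h1, h2, by rw [← h]; exact hA _ h1⟩
    · exact Or.inr ⟨⟨h1, by rw [h]; exact hA _ h2⟩, h2⟩
  · rintro (⟨h1, h2⟩ | ⟨h1, h2⟩)
    · exact Or.inl ⟨h1, h2.1⟩
    · exact Or.inr ⟨h1.1, h2⟩


end MC

end PW
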