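import Pool.Agent.Helper693.PW.MC3
import Pool.Agent.Helper693.PW.MC5
import Pool.Agent.Helper693.PW.MC6
import Pool.Agent.Helper693.PW.MC7
import Pool.Agent.Helper693.PW.MCT
import Pool.Agent.Helper693.PW.MC8
import Pool.Agent.Helper419.PW.Red

set_option autoImplicit false

namespace PW

namespace MC

variable {N : ℕ}

/-! ### turn counts -/

theorem tn_comm (L : List (Z N)) (A B : Finset (Z N)) : tn L A B = tn L B A := by
  unfold tn
  congr 1
  funext t
  simp only [decide_eq_decide]
  tauto

theorem tn_mono (L : List (Z N)) {A A' B B' : Finset (Z N)} (h : A ⊆ A') (h' : B ⊆ B') :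
    tn L A B ≤ tn L A' B' := by
  unfold tn
  apply List.countP_mono_left
  intro t _ ht
  simp only [decide_eq_true_eq] at ht ⊢
  rcases ht with ⟨h1, h2⟩ | ⟨h1, h2⟩
  · exact Or.inl ⟨h h1, h' h2⟩
  · exact Or.inr ⟨h' h1, h h2⟩














theorem inv_inv (x : Z N) : inv (inv x) = x := by
  simp [inv]

theorem inv_ne (x : Z N) : inv x ≠ x := by
  intro h
  have := congrArg Prod.snd h
  simp [inv] at this

/-- no translate of the axis of the letter `y` has differently coloured ends -/
def NoDiff (c : FreeGroup (Fin N) → Bool) (y : Z N) : Prop :=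
  ∀ (g : FreeGroup (Fin N)) (s : Bool), (∀ᶠ k : ℕ in Filter.atTop, c (g * (lt y) ^ k) = s) →
    ¬ (∀ᶠ k : ℕ in Filter.atTop, c (g * ((lt y) ^ k)⁻¹) = !s)

theorem line_dir (v g : FreeGroup (Fin N)) (y : Z N) :
    ((∀ᶠ k : ℕ in Filter.atTop, v⁻¹ * (g * (lt y) ^ k) ∈ St y) ∧
      (∀ᶠ k : ℕ in Filter.atTop, v⁻¹ * (g * ((lt y) ^ k)⁻¹) ∈ St (inv y))) ∨
    (∃ z : Z N, (∀ᶠ k : ℕ in Filter.atTop, v⁻¹ * (g * (lt y) ^ k) ∈ St z) ∧
      (∀ᶠ k : ℕ in Filter.atTop, v⁻¹ * (g * ((lt y) ^ k)⁻¹) ∈ St z)) := by
  have ht : Tight [y] := by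
    intro t htt
    simp [turns] at htt
    subst htt
    exact inv_ne y
  rcases ends_tri [y] (by simp) ht (v⁻¹ * g) with ⟨i, hi, m, -, h1, h2⟩ | ⟨z, h1, h2⟩
  · left
    have hl : (turns [y]).length = 1 := by simp [turns]
    have hi0 : i = 0 := by omega
    subst hi0
    have e1 : (turns [y])[0].2 = y := by simp [turns]
    have e2 : (turns [y])[0].1 = inv y := by simp [turns]
    rw [e1] at h1
    rw [e2] at h2
    constructor
    · filter_upwards [h1] with k hk
      rw [← mul_assoc]; exact hk
    · filter_upwards [h2] with k hk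
      rw [← mul_assoc]; exact hk
  · right
    refine ⟨z, ?_, ?_⟩
    · filter_upwards [h1] with k hk
      rw [← mul_assoc]; exact hk
    · filter_upwards [h2] with k hk
      rw [← mul_assoc]; exact hk

section step

variable (L : List (Z N)) (Lg : Finset (Fin N)) (π : Z N → ℕ) (B D κ : ℕ)

theorem closed_of (hF : NoFast L Lg π D) (h1 : NoS1 L Lg (B + 2 * D + 2 * κ)) (p : ℕ)
    (A : Finset (Z N)) (hA : ∀ x ∈ A, π x = p) (hcap : cap L A + D ≤ B + 2 * D + 2 * κ) :
    Closed Lg A := by
  intro x hx hxL
  by_contra hn
  have h := hF x hxL A hx hn (fun y hy => by rw [hA y hy, hA x hx])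
  have h' := h1 x.1 hxL
  omega

theorem mem_blk (p : ℕ) (x : Z N) : x ∈ blk π p ↔ π x = p := by
  simp [blk]

theorem closed_class (hG : Good L Lg π B) (hF : NoFast L Lg π D)
    (h1 : NoS1 L Lg (B + 2 * D + 2 * κ)) (p : ℕ) (A C : Finset (Z N))
    (hAC : ∀ z, π z = p → z ∈ A ∨ z ∈ C) (htn : tn L A C ≤ κ) : Closed Lg (A ∩ blk π p) := by
  have hp : ∀ x ∈ A ∩ blk π p, π x = p := fun x hx => (mem_blk π p x).1 (Finset.mem_inter.1 hx).2
  apply closed_of L Lg π B D κ hF h1 p _ hp
  rw [cap_blk L π hG.path p _ hp]
  have : tn L (A ∩ blk π p) (blk π p \ (A ∩ blk π p)) ≤ tn L A C := by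
    apply tn_mono L Finset.inter_subset_left
    intro z hz
    rw [Finset.mem_sdiff, mem_blk] at hz
    rcases hAC z hz.1 with h | h
    · exact absurd (Finset.mem_inter.2 ⟨h, (mem_blk π p z).2 hz.1⟩) hz.2
    · exact h
  omega

theorem tn_le (hG : Good L Lg π B) (c : FreeGroup (Fin N) → Bool) (v : FreeGroup (Fin N))
    (A C : Finset (Z N)) (hd : Disjoint A C) (s : Bool)
    (hA : ∀ z ∈ A, ∀ h : FreeGroup (Fin N), v⁻¹ * h ∈ St z → c h = s)
    (hC : ∀ z ∈ C, ∀ h : FreeGroup (Fin N), v⁻¹ * h ∈ St z → c h = !s)
    (hfin : (Dset c (FreeGroup.mk L)).Finite) :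
    tn L A C ≤ (Dset c (FreeGroup.mk L)).ncard := by
  classical
  refine (flip L hG.ne hG.tight c (fun h => if (∃ z ∈ A, v⁻¹ * h ∈ St z) then !s else c h)
    v A C hd s hA hC ?_ ?_ hfin).1
  · intro z hz h hh
    exact if_pos ⟨z, hz, hh⟩
  · intro z hz h hh
    apply if_neg
    rintro ⟨z', hz', h1⟩
    have := dir_unique _ _ _ hh h1
    subst this
    exact hz hz'

theorem lt_inv (z : Z N) : (lt z)⁻¹ = lt (inv z) := by
  simp [lt, inv, FreeGroup.inv_mk, FreeGroup.invRev]

theorem parent_mem (H : Finset (FreeGroup (Fin N)))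
    (hP : ∀ g ∈ H, ∀ n : ℕ, FreeGroup.mk (g.toWord.take n) ∈ H) (v : FreeGroup (Fin N)) (hv : v ∈ H)
    (b : Z N) (hb : v.toWord.getLast? = some (inv b)) : v * lt b ∈ H := by
  have h := hP v hv (v.toWord.length - 1)
  have hne : v.toWord ≠ [] := by
    intro h0
    rw [h0] at hb
    simp at hb
  have e : v.toWord = v.toWord.take (v.toWord.length - 1) ++ [inv b] := by
    have h1 := List.dropLast_append_getLast hne
    rw [List.getLast?_eq_some_getLast hne] at hb
    rw [Option.some.injEq] at hb
    rw [hb, List.dropLast_eq_take] at h1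
    exact h1.symm
  have : v * lt b = FreeGroup.mk (v.toWord.take (v.toWord.length - 1)) := by
    have h2 : v = FreeGroup.mk (v.toWord.take (v.toWord.length - 1)) * lt (inv b) := by
      conv_lhs => rw [← FreeGroup.mk_toWord (x := v), e]
      rw [lt, FreeGroup.mul_mk]
    conv_lhs => rw [h2]
    rw [← lt_inv b]
    group
  rw [this]
  exact h

/-- flipping the colour `s` beyond `v` -/
theorem step_flip (hG : Good L Lg π B) (v : FreeGroup (Fin N)) (H : Finset (FreeGroup (Fin N)))
    (hP : ∀ g ∈ H, ∀ n : ℕ, FreeGroup.mk (g.toWord.take n) ∈ H) (c : FreeGroup (Fin N) → Bool)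
    (hc : ∀ (g : FreeGroup (Fin N)) (z : Z N), g ∉ H → g * lt z ∉ H → c g = c (g * lt z))
    (hfin : (Dset c (FreeGroup.mk L)).Finite) (hcard : (Dset c (FreeGroup.mk L)).ncard ≤ κ)
    (hv : v ∈ H) (b : Z N) (hb : v.toWord.getLast? = some (inv b)) (col : Z N → Bool)
    (hcol : ∀ z, z ≠ b → ∀ h : FreeGroup (Fin N), v⁻¹ * h ∈ St z → c h = col z) (s : Bool)
    (hle : tn L (Finset.univ.filter (fun z => z ≠ b ∧ col z = s)) {b} ≤
      tn L (Finset.univ.filter (fun z => z ≠ b ∧ col z = s))
        (Finset.univ.filter (fun z => z ≠ b ∧ col z = !s)))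
    (IH : ∀ c' : FreeGroup (Fin N) → Bool,
      (∀ (g : FreeGroup (Fin N)) (z : Z N), g ∉ H.erase v → g * lt z ∉ H.erase v →
        c' g = c' (g * lt z)) →
      (Dset c' (FreeGroup.mk L)).Finite → (Dset c' (FreeGroup.mk L)).ncard ≤ κ →
      ∀ y : Z N, y.1 ∈ Lg → NoDiff c' y)
    (y : Z N) (hy : y.1 ∈ Lg) (hcl : y ≠ b → inv y ≠ b → col y = col (inv y))
    (hbs : (y = b ∨ inv y = b) → col (inv b) = !s) : NoDiff c y := by
  classical
  set A : Finset (Z N) := Finset.univ.filter (fun z => z ≠ b ∧ col z = s) with hAdef
  set C : Finset (Z N) := Finset.univ.filter (fun z => z ≠ b ∧ col z = !s) with hCdef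
  have mA : ∀ z, z ∈ A ↔ z ≠ b ∧ col z = s := fun z => by simp [hAdef]
  have mC : ∀ z, z ∈ C ↔ z ≠ b ∧ col z = !s := fun z => by simp [hCdef]
  have hd : Disjoint A C := by
    rw [Finset.disjoint_left]
    intro z h1 h2
    rw [mA] at h1
    rw [mC] at h2
    rw [h1.2] at h2
    cases s <;> simp at h2
  have hcomp : (A ∪ C)ᶜ = {b} := by
    ext z
    simp only [Finset.mem_compl, Finset.mem_union, mA, mC, Finset.mem_singleton]
    constructor
    · intro h
      by_contra hzb
      apply h
      cases hs : col z <;> cases s <;> simp [hzb]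
    · intro h h'
      rcases h' with h' | h' <;> exact h'.1 h
  let c' : FreeGroup (Fin N) → Bool := fun h =>
    if (h = v ∨ ∃ z ∈ A, v⁻¹ * h ∈ St z) then !s else c h
  have hvdir : ∀ z, v⁻¹ * v ∉ St z := fun z => by
    rw [inv_mul_cancel]
    exact one_not_mem_St z
  have c'A : ∀ z ∈ A, ∀ h : FreeGroup (Fin N), v⁻¹ * h ∈ St z → c' h = !s := by
    intro z hz h hh
    exact if_pos (Or.inr ⟨z, hz, hh⟩)
  have c'n : ∀ z, z ∉ A → ∀ h : FreeGroup (Fin N), v⁻¹ * h ∈ St z → c' h = c h := by
    intro z hz h hh
    apply if_neg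
    rintro (h1 | ⟨z', hz', h1⟩)
    · subst h1
      exact hvdir z hh
    · have := dir_unique _ _ _ hh h1
      subst this
      exact hz hz'
  have hfl := flip L hG.ne hG.tight c c' v A C hd s
    (fun z hz h hh => by rw [hcol z ((mA z).1 hz).1 h hh, ((mA z).1 hz).2])
    (fun z hz h hh => by rw [hcol z ((mC z).1 hz).1 h hh, ((mC z).1 hz).2]) c'A c'n hfin
  rw [hcomp] at hfl
  have hoff : ∀ (g : FreeGroup (Fin N)) (z : Z N), g ∉ H.erase v → g * lt z ∉ H.erase v →
      c' g = c' (g * lt z) := by
    have key : ∀ z : Z N, v * lt z ∉ H.erase v → c' v = c' (v * lt z) := by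
      intro z hz
      have e1 : c' v = !s := if_pos (Or.inl rfl)
      have hdir : v⁻¹ * (v * lt z) ∈ St z := by
        rw [inv_mul_cancel_left]
        exact mem_St_lt z
      have hzb : z ≠ b := by
        intro hzb
        subst hzb
        apply hz
        rw [Finset.mem_erase]
        refine ⟨?_, parent_mem H hP v hv z hb⟩
        intro h0
        have : lt z = 1 := by simpa using h0
        have h2 := mem_St_lt z
        rw [this] at h2
        exact one_not_mem_St z h2
      rw [e1]
      by_cases hzs : col z = s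
      · exact (c'A z ((mA z).2 ⟨hzb, hzs⟩) _ hdir).symm
      · rw [c'n z (fun h => hzs ((mA z).1 h).2) _ hdir, hcol z hzb _ hdir]
        cases h3 : col z <;> cases s <;> simp_all
    intro g z hg hgz
    by_cases h1 : g = v
    · subst h1
      exact key z hgz
    by_cases h2 : g * lt z = v
    · have e : g = v * lt (inv z) := by
        rw [← h2, ← lt_inv]
        group
      rw [h2]
      have := key (inv z) (by rw [← e]; exact hg)
      rw [← e] at this
      exact this.symm
    have hg' : g ∉ H := fun h => hg (Finset.mem_erase.2 ⟨h1, h⟩)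
    have hgz' : g * lt z ∉ H := fun h => hgz (Finset.mem_erase.2 ⟨h2, h⟩)
    obtain ⟨w, hw⟩ := exists_dir (v⁻¹ * g) (by
      intro h0
      apply h1
      have := congrArg (fun x => v * x) h0
      simpa using this)
    have hw' := dir_step v g z w hw h2
    by_cases hwA : w ∈ A
    · rw [c'A w hwA g hw, c'A w hwA _ hw']
    · rw [c'n w hwA g hw, c'n w hwA _ hw']
      exact hc g z hg' hgz'
  have hIH := IH c' hoff hfl.2.1 (by omega) y hy
  intro g s' h1 h2
  rcases line_dir v g y with ⟨d1, d2⟩ | ⟨z, d1, d2⟩
  · by_cases hyb : y = b ∨ inv y = b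
    · have hs := hbs hyb
      have hibA : inv b ∉ A := by
        rw [mA]
        rintro ⟨-, h3⟩
        rw [h3] at hs
        cases s <;> simp at hs
      have hbA : b ∉ A := by
        rw [mA]
        rintro ⟨h3, -⟩
        exact h3 rfl
      have hyA : y ∉ A := by
        rcases hyb with h | h
        · rw [h]; exact hbA
        · rw [← h, inv_inv] at hibA; exact hibA
      have hiyA : inv y ∉ A := by
        rcases hyb with h | h
        · rw [h]; exact hibA
        · rw [h]; exact hbA
      apply hIH g s'
      · filter_upwards [h1, d1] with k k1 k2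
        rw [c'n y hyA _ k2, k1]
      · filter_upwards [h2, d2] with k k1 k2
        rw [c'n _ hiyA _ k2, k1]
    · push Not at hyb
      have h3 := hcl hyb.1 hyb.2
      obtain ⟨k, k1, k2⟩ := (h1.and d1).exists
      obtain ⟨k', k1', k2'⟩ := (h2.and d2).exists
      rw [hcol y hyb.1 _ k2] at k1
      rw [hcol _ hyb.2 _ k2'] at k1'
      rw [← h3, k1] at k1'
      cases s' <;> simp at k1'
  · by_cases hzb : z = b
    · subst hzb
      have hbA : z ∉ A := by
        rw [mA]
        rintro ⟨h3, -⟩
        exact h3 rfl
      apply hIH g s'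
      · filter_upwards [h1, d1] with k k1 k2
        rw [c'n z hbA _ k2, k1]
      · filter_upwards [h2, d2] with k k1 k2
        rw [c'n _ hbA _ k2, k1]
    · obtain ⟨k, k1, k2⟩ := (h1.and d1).exists
      obtain ⟨k', k1', k2'⟩ := (h2.and d2).exists
      rw [hcol z hzb _ k2] at k1
      rw [hcol z hzb _ k2'] at k1'
      rw [k1] at k1'
      cases s' <;> simp at k1'


/-- no translate of the axis of a large letter is cut by a colouring crossed at most `κ` times by `L` -/
theorem nodiff_all (hG : Good L Lg π B) (hF : NoFast L Lg π D)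
    (h1 : NoS1 L Lg (B + 2 * D + 2 * κ)) (h2 : NoS2 L Lg π (B + 2 * D + 2 * κ))
    (h3 : NoS3 L Lg π κ) (h4 : NoSlide L Lg π) :
    ∀ (n : ℕ) (H : Finset (FreeGroup (Fin N))) (c : FreeGroup (Fin N) → Bool), H.card = n →
      1 ∈ H → (∀ g ∈ H, ∀ n : ℕ, FreeGroup.mk (g.toWord.take n) ∈ H) →
      (∀ (g : FreeGroup (Fin N)) (z : Z N), g ∉ H → g * lt z ∉ H → c g = c (g * lt z)) →
      (Dset c (FreeGroup.mk L)).Finite → (Dset c (FreeGroup.mk L)).ncard ≤ κ →
      ∀ y : Z N, y.1 ∈ Lg → NoDiff c y := by
  classical
  intro n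
  induction n with
  | zero =>
    intro H c hn h1H
    rw [Finset.card_eq_zero] at hn
    subst hn
    simp at h1H
  | succ n ih =>
    intro H c hn h1H hP hc hfin hcard y hy
    obtain ⟨v, hvH, hvmax⟩ := Finset.exists_max_image H (fun g => g.toWord.length) ⟨1, h1H⟩
    have hloopy : π (inv y) = π y := by
      have := hG.loop y.1 hy
      rcases y with ⟨i, s⟩
      cases s
      · exact this
      · exact this.symm
    by_cases hv : v = 1
    · subst hv
      have hcol : ∀ z : Z N, ∃ s : Bool, ∀ h : FreeGroup (Fin N), (1 : FreeGroup (Fin N))⁻¹ * h ∈ St z → c h = s :=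
        fun z => const_beyond c H hc 1 z (beyond_long H 1 hvmax z (by simp))
      choose col hcol using hcol
      set A : Finset (Z N) := Finset.univ.filter (fun z => col z = true) with hA
      set C : Finset (Z N) := Finset.univ.filter (fun z => col z = false) with hC
      have mA : ∀ z, z ∈ A ↔ col z = true := fun z => by simp [hA]
      have mC : ∀ z, z ∈ C ↔ col z = false := fun z => by simp [hC]
      have hAC : ∀ z, z ∈ A ∨ z ∈ C := by
        intro z
        rw [mA, mC]
        cases col z <;> simp
      have hd : Disjoint A C := by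
        rw [Finset.disjoint_left]
        intro z hz hz'
        rw [mA] at hz
        rw [mC] at hz'
        simp [hz] at hz'
      have htn : tn L A C ≤ κ := (tn_le L Lg π B hG c 1 A C hd true
        (fun z hz h hh => by rw [hcol z h hh, (mA z).1 hz])
        (fun z hz h hh => by rw [hcol z h hh, (mC z).1 hz]; rfl) hfin).trans hcard
      have cA := closed_class L Lg π B D κ hG hF h1 (π y) A C (fun z _ => hAC z) htn
      have cC := closed_class L Lg π B D κ hG hF h1 (π y) C A (fun z _ => (hAC z).symm)
        (by rw [tn_comm]; exact htn)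
      have hyy : col y = col (inv y) := by
        rcases hAC y with h | h
        · have := cA y (Finset.mem_inter.2 ⟨h, (mem_blk π _ y).2 rfl⟩) hy
          rw [(mA y).1 h, (mA _).1 (Finset.mem_inter.1 this).1]
        · have := cC y (Finset.mem_inter.2 ⟨h, (mem_blk π _ y).2 rfl⟩) hy
          rw [(mC y).1 h, (mC _).1 (Finset.mem_inter.1 this).1]
      intro g s' e1 e2
      rcases line_dir 1 g y with ⟨d1, d2⟩ | ⟨z, d1, d2⟩
      · obtain ⟨k, k1, k2⟩ := (e1.and d1).exists
        obtain ⟨k', k1', k2'⟩ := (e2.and d2).exists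
        rw [hcol y _ k2] at k1
        rw [hcol _ _ k2'] at k1'
        rw [← hyy, k1] at k1'
        cases s' <;> simp at k1'
      · obtain ⟨k, k1, k2⟩ := (e1.and d1).exists
        obtain ⟨k', k1', k2'⟩ := (e2.and d2).exists
        rw [hcol z _ k2] at k1
        rw [hcol z _ k2'] at k1'
        rw [k1] at k1'
        cases s' <;> simp at k1'
    · -- `v ≠ 1`
      have hne : v.toWord ≠ [] := by
        intro h0
        exact hv (FreeGroup.toWord_eq_nil_iff.1 h0)
      obtain ⟨b, hb⟩ : ∃ b : Z N, v.toWord.getLast? = some (inv b) :=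
        ⟨inv (v.toWord.getLast hne), by rw [inv_inv]; exact List.getLast?_eq_some_getLast hne⟩
      have hcol0 : ∀ z : Z N, ∃ s : Bool, z ≠ b → ∀ h : FreeGroup (Fin N), v⁻¹ * h ∈ St z → c h = s := by
        intro z
        by_cases hzb : z = b
        · exact ⟨true, fun h => absurd hzb h⟩
        · obtain ⟨s, hs⟩ := const_beyond c H hc v z (beyond_long H v hvmax z (by
            rw [hb]
            intro h
            apply hzb
            rw [Option.some.injEq] at h
            rw [← inv_inv z, ← h, inv_inv]))
          exact ⟨s, fun _ => hs⟩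
      choose col hcol using hcol0
      have IH : ∀ c' : FreeGroup (Fin N) → Bool,
          (∀ (g : FreeGroup (Fin N)) (z : Z N), g ∉ H.erase v → g * lt z ∉ H.erase v →
            c' g = c' (g * lt z)) →
          (Dset c' (FreeGroup.mk L)).Finite → (Dset c' (FreeGroup.mk L)).ncard ≤ κ →
          ∀ y : Z N, y.1 ∈ Lg → NoDiff c' y := by
        intro c' hc' hf' hk'
        refine ih (H.erase v) c' (by rw [Finset.card_erase_of_mem hvH, hn]; rfl)
          (Finset.mem_erase.2 ⟨fun h => hv h.symm, h1H⟩) ?_ hc' hf' hk'
        intro g hg m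
        rw [Finset.mem_erase] at hg ⊢
        refine ⟨?_, hP g hg.2 m⟩
        intro hgm
        apply hg.1
        have hred : FreeGroup.IsReduced (g.toWord.take m) := by
          have := FreeGroup.isReduced_toWord (x := g)
          exact this.pwSub (List.take_prefix m _).isInfix
        have e1 : v.toWord = g.toWord.take m := by
          rw [← hgm, FreeGroup.toWord_mk]
          exact hred.reduce_eq
        have e2 := hvmax g hg.2
        rw [e1, List.length_take] at e2
        have e3 : g.toWord.take m = g.toWord := by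
          apply List.take_of_length_le
          omega
        rw [e3] at e1
        exact (FreeGroup.toWord_injective e1).symm
      -- facts for each colour
      have mF : ∀ s z, z ∈ (Finset.univ.filter (fun z => z ≠ b ∧ col z = s) : Finset (Z N)) ↔
          z ≠ b ∧ col z = s := fun s z => by simp
      have htn : ∀ s, tn L (Finset.univ.filter (fun z => z ≠ b ∧ col z = s))
          (Finset.univ.filter (fun z => z ≠ b ∧ col z = !s)) ≤ κ := by
        intro s
        refine (tn_le L Lg π B hG c v _ _ ?_ s
          (fun z hz h hh => by rw [hcol z ((mF s z).1 hz).1 h hh, ((mF s z).1 hz).2])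
          (fun z hz h hh => by rw [hcol z ((mF _ z).1 hz).1 h hh, ((mF _ z).1 hz).2]) hfin).trans hcard
        rw [Finset.disjoint_left]
        intro z hz hz'
        rw [mF] at hz hz'
        rw [hz.2] at hz'
        cases s <;> simp at hz'
      have hother : ∀ z, z ≠ b → ∀ s, (z ≠ b ∧ col z = s) ∨ (z ≠ b ∧ col z = !s) := by
        intro z hz s
        cases h : col z <;> cases s <;> simp [hz]
      -- loops in other classes
      have hfar : π y ≠ π b → col y = col (inv y) := by
        intro hyb
        have hnb : ∀ z, π z = π y → z ≠ b := by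
          rintro z hz rfl
          exact hyb hz.symm
        have cl := closed_class L Lg π B D κ hG hF h1 (π y) _ _
          (fun z hz => by
            rw [mF, mF]
            exact hother z (hnb z hz) (col y)) (htn (col y))
        have := cl y (Finset.mem_inter.2 ⟨(mF _ y).2 ⟨hnb y rfl, rfl⟩, (mem_blk π _ y).2 rfl⟩) hy
        exact ((mF _ _).1 (Finset.mem_inter.1 this).1).2.symm
      -- the classes at `b`
      have hblk : ∀ s, tn L (Finset.univ.filter (fun z => z ≠ b ∧ col z = s)) {b} =
          tn L ((Finset.univ.filter (fun z => z ≠ b ∧ col z = s)) ∩ blk π (π b)) {b} := by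
        intro s
        rw [tn_comm, tn_blk L π hG.path (π b) {b} _ (by simp), tn_comm]
      have hABle : ∀ s, tn L ((Finset.univ.filter (fun z => z ≠ b ∧ col z = s)) ∩ blk π (π b))
          ((Finset.univ.filter (fun z => z ≠ b ∧ col z = !s)) ∩ blk π (π b)) ≤
          tn L (Finset.univ.filter (fun z => z ≠ b ∧ col z = s))
            (Finset.univ.filter (fun z => z ≠ b ∧ col z = !s)) :=
        fun s => tn_mono L Finset.inter_subset_left Finset.inter_subset_left
      have mI : ∀ s z, z ∈ ((Finset.univ.filter (fun z => z ≠ b ∧ col z = s)) ∩ blk π (π b) : Finset (Z N)) ↔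
          (z ≠ b ∧ col z = s) ∧ π z = π b := fun s z => by
        rw [Finset.mem_inter, mF, mem_blk]
      have hpI : ∀ s, ∀ x ∈ ((Finset.univ.filter (fun z => z ≠ b ∧ col z = s)) ∩ blk π (π b) : Finset (Z N)),
          π x = π b := fun s x hx => ((mI s x).1 hx).2
      have hdis : ∀ s, Disjoint ((Finset.univ.filter (fun z => z ≠ b ∧ col z = s)) ∩ blk π (π b) : Finset (Z N))
          ((Finset.univ.filter (fun z => z ≠ b ∧ col z = !s)) ∩ blk π (π b)) := by
        intro s
        rw [Finset.disjoint_left]
        intro z hz hz'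
        rw [mI] at hz hz'
        rw [hz.1.2] at hz'
        cases s <;> simp at hz'
      have hbI : ∀ s, Disjoint ({b} : Finset (Z N)) ((Finset.univ.filter (fun z => z ≠ b ∧ col z = s)) ∩ blk π (π b)) := by
        intro s
        rw [Finset.disjoint_singleton_left, mI]
        exact fun h => h.1.1 rfl
      have hcapI : ∀ s, cap L ((Finset.univ.filter (fun z => z ≠ b ∧ col z = s)) ∩ blk π (π b)) =
          tn L ((Finset.univ.filter (fun z => z ≠ b ∧ col z = s)) ∩ blk π (π b)) {b} +
          tn L ((Finset.univ.filter (fun z => z ≠ b ∧ col z = s)) ∩ blk π (π b))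
            ((Finset.univ.filter (fun z => z ≠ b ∧ col z = !s)) ∩ blk π (π b)) := by
        intro s
        rw [cap_blk L π hG.path (π b) _ (hpI s), ← tn_union L _ _ _ (hbI s).symm (hdis s) (hbI _)]
        congr 1
        ext z
        rw [Finset.mem_sdiff, Finset.mem_union, mI, mI, mem_blk, Finset.mem_singleton]
        constructor
        · rintro ⟨h, h'⟩
          by_cases hzb : z = b
          · exact Or.inl hzb
          · rcases hother z hzb s with h2 | h2
            · exact absurd ⟨h2, h⟩ h'
            · exact Or.inr ⟨h2, h⟩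
        · rintro (h | h)
          · subst h
            exact ⟨rfl, fun h => h.1.1 rfl⟩
          · refine ⟨h.2, fun h' => ?_⟩
            have e1 := h.1.2
            rw [h'.1.2] at e1
            cases s <;> simp at e1
      by_cases hbL : b.1 ∈ Lg
      · -- `b` large
        have hloopb : π (inv b) = π b := by
          have := hG.loop b.1 hbL
          rcases b with ⟨i, s⟩
          cases s
          · exact this
          · exact this.symm
        have hibb : inv b ≠ b := inv_ne b
        obtain ⟨s, hs⟩ : ∃ s, col (inv b) = !s := ⟨!(col (inv b)), by simp⟩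
        set Ab : Finset (Z N) := (Finset.univ.filter (fun z => z ≠ b ∧ col z = s)) ∩ blk π (π b) with hAb
        set Cb : Finset (Z N) := (Finset.univ.filter (fun z => z ≠ b ∧ col z = !s)) ∩ blk π (π b) with hCb
        have hibA : inv b ∉ Ab := by
          rw [hAb, mI]
          rintro ⟨⟨-, h⟩, -⟩
          rw [h] at hs
          cases s <;> simp at hs
        have hbAb : b ∉ Ab := by
          rw [hAb, mI]
          exact fun h => h.1.1 rfl
        have hsplit : blk π (π b) \ (insert b Ab) = Cb := by
          ext z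
          rw [Finset.mem_sdiff, Finset.mem_insert, hCb, hAb, mI, mI, mem_blk]
          constructor
          · rintro ⟨h, h'⟩
            push Not at h'
            rcases hother z h'.1 s with h2 | h2
            · exact absurd h (h'.2 h2)
            · exact ⟨h2, h⟩
          · rintro ⟨h, h'⟩
            refine ⟨h', ?_⟩
            rintro (h2 | h2)
            · exact h.1 h2
            · have e1 := h.2
              rw [h2.1.2] at e1
              cases s <;> simp at e1
        have k1 := hF b hbL (insert b Ab) (Finset.mem_insert_self _ _)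
          (by
            rw [Finset.mem_insert]
            rintro (h | h)
            · exact hibb h
            · exact hibA h)
          (by
            intro x hx
            rw [Finset.mem_insert] at hx
            rcases hx with h | h
            · rw [h]
            · exact hpI s x h)
        have k2 : cap L (insert b Ab) = tn L {b} Cb + tn L Ab Cb := by
          rw [cap_blk L π hG.path (π b) _ (by
            intro x hx
            rw [Finset.mem_insert] at hx
            rcases hx with h | h
            · rw [h]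
            · exact hpI s x h), hsplit, Finset.insert_eq, tn_comm,
            tn_union L _ _ _ (hbI (!s)).symm (hdis s).symm (hbI s), tn_comm L Cb, tn_comm L Cb]
        have k3 : deg L b.1 = tn L {b} Ab + tn L {b} Cb := by
          rw [← cap_singleton L hG.tight b, cap_blk L π hG.path (π b) _ (by simp),
            ← tn_union L _ _ _ (hbI s) (hbI (!s)) (hdis s)]
          congr 1
          ext z
          rw [Finset.mem_sdiff, Finset.mem_union, mI, mI, mem_blk, Finset.mem_singleton]
          constructor
          · rintro ⟨h, h'⟩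
            rcases hother z h' s with h2 | h2
            · exact Or.inl ⟨h2, h⟩
            · exact Or.inr ⟨h2, h⟩
          · rintro (h | h)
            · exact ⟨h.2, h.1.1⟩
            · exact ⟨h.2, h.1.1⟩
        have k4 := hcapI s
        rw [← hAb, ← hCb] at k4
        have k5 := (hABle s).trans (htn s)
        rw [← hAb, ← hCb] at k5
        have k6 : tn L {b} Ab = tn L Ab {b} := tn_comm _ _ _
        have cl : Closed Lg Ab := closed_of L Lg π B D κ hF h1 (π b) Ab (hpI s) (by omega)
        have hsmall : ∀ x ∈ Ab, x.1 ∉ Lg := by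
          intro x hx hxL
          have := h2 (π b) Ab (hpI s) cl ⟨x, hx, hxL⟩ ⟨b, hbAb, rfl, hbL⟩
          omega
        have k7 := h4 b Ab hbL (fun x hx => ⟨hsmall x hx, hpI s x hx⟩)
        rw [hsplit] at k7
        have hle : tn L (Finset.univ.filter (fun z => z ≠ b ∧ col z = s)) {b} ≤
            tn L (Finset.univ.filter (fun z => z ≠ b ∧ col z = s))
              (Finset.univ.filter (fun z => z ≠ b ∧ col z = !s)) := by
          rw [hblk s]
          exact k7.trans (hABle s)
        refine step_flip L Lg π B κ hG v H hP c hc hfin hcard hvH b hb col hcol s hle IH y hy ?_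
          (fun _ => hs)
        intro e1 e2
        by_cases hyb : π y = π b
        · have t1 : ∀ z, z ≠ b → z.1 ∈ Lg → π z = π b → col z = !s := by
            intro z hz hzL hzb
            rcases hother z hz s with h | h
            · exact absurd hzL (hsmall z ((mI s z).2 ⟨h, hzb⟩))
            · exact h.2
          rw [t1 y e1 hy hyb, t1 (inv y) e2 hy (hloopy.trans hyb)]
        · exact hfar hyb
      · -- `b` small
        have hdeg : deg L b.1 ≤ B := hG.small b.1 hbL
        have cl : ∀ s, Closed Lg ((Finset.univ.filter (fun z => z ≠ b ∧ col z = s)) ∩ blk π (π b) : Finset (Z N)) := by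
          intro s
          apply closed_of L Lg π B D κ hF h1 (π b) _ (hpI s)
          have e1 := hcapI s
          have e2 := (hABle s).trans (htn s)
          have e3 := tn_le_deg L ((Finset.univ.filter (fun z => z ≠ b ∧ col z = s)) ∩ blk π (π b)) b
          omega
        have e0 := h3 b _ _ hbL (by
          ext z
          rw [Finset.mem_union, mI true, mI (!true), Finset.mem_erase, mem_blk]
          constructor
          · rintro (h | h)
            · exact ⟨h.1.1, h.2⟩
            · exact ⟨h.1.1, h.2⟩
          · rintro ⟨h, h'⟩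
            rcases hother z h true with h2 | h2
            · exact Or.inl ⟨h2, h'⟩
            · exact Or.inr ⟨h2, h'⟩) (hdis true) (cl true) (cl (!true)) ((hABle true).trans (htn true))
        have hfin2 : ∀ s, tn L ((Finset.univ.filter (fun z => z ≠ b ∧ col z = s)) ∩ blk π (π b)) {b} ≤
            tn L ((Finset.univ.filter (fun z => z ≠ b ∧ col z = s)) ∩ blk π (π b))
            ((Finset.univ.filter (fun z => z ≠ b ∧ col z = !s)) ∩ blk π (π b)) → NoDiff c y := by
          intro s hs
          refine step_flip L Lg π B κ hG v H hP c hc hfin hcard hvH b hb col hcol s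
            (by rw [hblk s]; exact hs.trans (hABle s)) IH y hy ?_ ?_
          · intro e1 e2
            by_cases hyb : π y = π b
            · have := cl (col y) y ((mI _ y).2 ⟨⟨e1, rfl⟩, hyb⟩) hy
              exact ((mI _ _).1 this).1.2.symm
            · exact hfar hyb
          · rintro (h | h)
            · subst h
              exact absurd hy hbL
            · rw [← h] at hbL
              exact absurd hy hbL
        rcases e0 with e0 | e0
        · exact hfin2 true e0
        · apply hfin2 (!true)
          rw [tn_comm L _ ((Finset.univ.filter (fun z => z ≠ b ∧ col z = !!true)) ∩ blk π (π b))]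
          exact e0


end step


end MC

open MC in
/-- MAIN CLAIM: if no move is possible there is no large letter. -/
theorem mainClaim {N : ℕ} (L : List (Z N)) (Lg : Finset (Fin N)) (π : Z N → ℕ) (B D κ : ℕ)
    (u : FreeGroup (Fin N)) (hu : u ≠ 1) (hκ : u.toWord.length ≤ κ) (hO : Orb u L)
    (hG : Good L Lg π B) (hF : NoFast L Lg π D)
    (h1 : NoS1 L Lg (B + 2 * D + 2 * κ)) (h2 : NoS2 L Lg π (B + 2 * D + 2 * κ))
    (h3 : NoS3 L Lg π κ) (h4 : NoSlide L Lg π) : Lg = ∅ := by
  by_contra hne
  obtain ⟨i, hi⟩ := Finset.nonempty_iff_ne_empty.2 hne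
  obtain ⟨φ, hφ⟩ := hO
  have ha : φ.symm (lt (i, true)) ≠ 1 := by
    intro h
    have h' : lt ((i, true) : Z N) = 1 := by
      have := congrArg φ h
      simpa using this
    have := mem_St_lt ((i, true) : Z N)
    rw [h'] at this
    exact one_not_mem_St _ this
  obtain ⟨x, g, e1, e2⟩ := half_sep _ ha
  obtain ⟨H, hH1, hH2, hH3⟩ := half_off φ x
  obtain ⟨hf, hc⟩ := half_count u (FreeGroup.mk L) hu φ hφ x
  have := nodiff_all L Lg π B D κ hG hF h1 h2 h3 h4 H.card H
    (fun g => decide ((φ.symm g).toWord.head? = some x)) rfl hH1 hH2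
    (fun g z hg hgz => by
      have := hH3 g z hg hgz
      simp only [decide_eq_decide]
      exact this) hf (hc.trans hκ) (i, true) hi (φ g) true
  apply this
  · filter_upwards [e1] with k hk
    simp only [map_mul, map_pow, MulEquiv.symm_apply_apply, decide_eq_true_eq]
    exact hk
  · filter_upwards [e2] with k hk
    simp only [map_mul, map_pow, map_inv, MulEquiv.symm_apply_apply, Bool.not_true, decide_eq_false_iff_not]
    exact hk


end PW
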