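import Pool.Agent.Helper693.PW.MCDefs

set_option autoImplicit false

namespace PW

namespace MC

variable {N : ℕ}

theorem ends_tri_idx (n : ℕ) (hn : 0 < n) (j : ℤ) : (j % (n : ℤ)).toNat < n := by
  have h1 := Int.emod_nonneg j (by omega : (n : ℤ) ≠ 0)
  have h2 := Int.emod_lt_of_pos j (by omega : (0 : ℤ) < n)
  omega

/-- periodic letters -/
def ends_tri_X (L : List (Z N)) (hn : 0 < L.length) (j : ℤ) : Z N :=
  L[(j % (L.length : ℤ)).toNat]'(ends_tri_idx _ hn j)

/-- points of the line -/
def ends_tri_P (L : List (Z N)) (g : FreeGroup (Fin N)) (j : ℤ) : FreeGroup (Fin N) :=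
  g * (FreeGroup.mk L) ^ (j / (L.length : ℤ)) * FreeGroup.mk (L.take (j % (L.length : ℤ)).toNat)

theorem ends_tri_mk_inv (x : Z N) : FreeGroup.mk [x] * FreeGroup.mk [inv x] = 1 := by
  rw [FreeGroup.mul_mk]
  apply FreeGroup.Red.exact.mpr
  refine ⟨[], ?_, Relation.ReflTransGen.refl⟩
  obtain ⟨a, b⟩ := x
  exact Relation.ReflTransGen.single (FreeGroup.Red.Step.not (L₁ := []) (L₂ := []))

theorem ends_tri_step (L : List (Z N)) (hn : 0 < L.length) (g : FreeGroup (Fin N)) (j : ℤ) :
    ends_tri_P L g (j + 1) = ends_tri_P L g j * FreeGroup.mk [ends_tri_X L hn j] := by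
  have h1 := Int.emod_nonneg j (by omega : (L.length : ℤ) ≠ 0)
  have h2 := Int.emod_lt_of_pos j (by omega : (0 : ℤ) < L.length)
  have h3 := Int.mul_ediv_add_emod j L.length
  have hr := ends_tri_idx L.length hn j
  have htake : L.take ((j % (L.length : ℤ)).toNat + 1) =
      L.take (j % (L.length : ℤ)).toNat ++ [ends_tri_X L hn j] := by
    rw [List.take_succ_eq_append_getElem hr]; rfl
  have hmk : ends_tri_P L g j * FreeGroup.mk [ends_tri_X L hn j] =
      g * (FreeGroup.mk L) ^ (j / (L.length : ℤ)) *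
        FreeGroup.mk (L.take ((j % (L.length : ℤ)).toNat + 1)) := by
    rw [htake, ← FreeGroup.mul_mk]
    unfold ends_tri_P
    simp only [mul_assoc]
  rw [hmk]
  unfold ends_tri_P
  by_cases hc : j % (L.length : ℤ) + 1 < L.length
  · have e1 : (j + 1) / (L.length : ℤ) = j / (L.length : ℤ) := by
      rw [Int.ediv_eq_iff_of_pos (by omega)]
      constructor <;> nlinarith
    have e2 : (j + 1) % (L.length : ℤ) = j % (L.length : ℤ) + 1 := by
      have h4 := Int.mul_ediv_add_emod (j + 1) L.length
      rw [e1] at h4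
      linarith
    rw [e1, e2]
    congr 3
    omega
  · have hc' : j % (L.length : ℤ) + 1 = L.length := by omega
    have e1 : (j + 1) / (L.length : ℤ) = j / (L.length : ℤ) + 1 := by
      rw [Int.ediv_eq_iff_of_pos (by omega)]
      constructor <;> nlinarith
    have e2 : (j + 1) % (L.length : ℤ) = 0 := by
      have h4 := Int.mul_ediv_add_emod (j + 1) L.length
      rw [e1] at h4
      linarith
    rw [e1, e2]
    have e3 : (j % (L.length : ℤ)).toNat + 1 = L.length := by omega
    rw [e3, List.take_length, zpow_add_one, mul_assoc, mul_assoc, mul_assoc]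
    simp [← FreeGroup.one_eq_mk]

theorem ends_tri_step' (L : List (Z N)) (hn : 0 < L.length) (g : FreeGroup (Fin N)) (j : ℤ) :
    ends_tri_P L g (j - 1) = ends_tri_P L g j * FreeGroup.mk [inv (ends_tri_X L hn (j - 1))] := by
  have h := ends_tri_step L hn g (j - 1)
  rw [sub_add_cancel] at h
  rw [h, mul_assoc, ends_tri_mk_inv, mul_one]

theorem ends_tri_fwd (L : List (Z N)) (hn : 0 < L.length) (g : FreeGroup (Fin N)) (j : ℤ) (k : ℕ) :
    ends_tri_P L g (j + k) = ends_tri_P L g j *
      FreeGroup.mk ((List.range k).map (fun t : ℕ => ends_tri_X L hn (j + t))) := by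
  induction k with
  | zero => simp [← FreeGroup.one_eq_mk]
  | succ k ih =>
    rw [List.range_succ, List.map_append, ← FreeGroup.mul_mk, ← mul_assoc, ← ih]
    rw [List.map_singleton, ← ends_tri_step L hn g]
    push_cast
    rw [add_assoc]

theorem ends_tri_bwd (L : List (Z N)) (hn : 0 < L.length) (g : FreeGroup (Fin N)) (j : ℤ) (k : ℕ) :
    ends_tri_P L g (j - k) = ends_tri_P L g j *
      FreeGroup.mk ((List.range k).map (fun t : ℕ => inv (ends_tri_X L hn (j - 1 - t)))) := by
  induction k with
  | zero => simp [← FreeGroup.one_eq_mk]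
  | succ k ih =>
    rw [List.range_succ, List.map_append, ← FreeGroup.mul_mk, ← mul_assoc, ← ih]
    rw [List.map_singleton]
    have h := ends_tri_step' L hn g (j - k)
    have e1 : j - (k : ℤ) - 1 = j - 1 - k := by ring
    have e2 : j - ((k + 1 : ℕ) : ℤ) = j - k - 1 := by push_cast; ring
    rw [e2, h, e1]

theorem ends_tri_inv_inv (x : Z N) : inv (inv x) = x := by
  simp [inv]

theorem ends_tri_R {x y : Z N} (h : y ≠ inv x) : x.1 = y.1 → x.2 = y.2 := by
  intro h1
  by_contra h2
  apply h
  obtain ⟨a, b⟩ := x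
  obtain ⟨c, d⟩ := y
  simp only [inv] at *
  subst h1
  cases b <;> cases d <;> simp_all

theorem ends_tri_red (V : List (Z N)) (hV : FreeGroup.IsReduced V) (f : ℕ → Z N)
    (h0 : ∀ y ∈ V.getLast?, f 0 ≠ inv y) (hf : ∀ t, f (t + 1) ≠ inv (f t)) (k : ℕ) :
    FreeGroup.IsReduced (V ++ (List.range k).map f) := by
  induction k with
  | zero => simpa using hV
  | succ k ih =>
    rw [List.range_succ, List.map_append, ← List.append_assoc]
    unfold FreeGroup.IsReduced at *
    rw [List.isChain_append]
    refine ⟨ih, by simp, ?_⟩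
    intro x hx y hy
    simp only [List.map_singleton, List.head?_cons, Option.mem_def, Option.some.injEq] at hy
    subst hy
    apply ends_tri_R
    rcases k with _ | k
    · simp only [List.range_zero, List.map_nil, List.append_nil] at hx
      exact h0 x hx
    · rw [List.range_succ, List.map_append, ← List.append_assoc] at hx
      simp only [List.map_singleton, List.getLast?_append, List.getLast?_singleton] at hx
      have : x = f k := by simpa using hx.symm
      subst this
      exact hf k

theorem ends_tri_turn0 (L : List (Z N)) (hn : 0 < L.length) (i : ℕ)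
    (hi : i < (turns L).length) (h1 : i < L.length) :
    (turns L)[i] = (inv L[i], L[(i + 1) % L.length]'(Nat.mod_lt _ hn)) := by
  simp only [turns, List.getElem_zip, List.getElem_map, List.getElem_rotate]

theorem ends_tri_turn (L : List (Z N)) (hn : 0 < L.length) (j : ℤ)
    (hi : ((j - 1) % (L.length : ℤ)).toNat < (turns L).length) :
    (turns L)[((j - 1) % (L.length : ℤ)).toNat] =
      (inv (ends_tri_X L hn (j - 1)), ends_tri_X L hn j) := by
  have h1 := Int.emod_nonneg (j - 1) (by omega : (L.length : ℤ) ≠ 0)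
  have h2 := Int.emod_lt_of_pos (j - 1) (by omega : (0 : ℤ) < L.length)
  rw [ends_tri_turn0 L hn _ hi (ends_tri_idx _ hn _)]
  unfold ends_tri_X
  have e : (((j - 1) % (L.length : ℤ)).toNat + 1) % L.length = (j % (L.length : ℤ)).toNat := by
    have h5 := Int.emod_nonneg j (by omega : (L.length : ℤ) ≠ 0)
    zify
    rw [Int.toNat_of_nonneg h1, Int.toNat_of_nonneg h5, Int.emod_add_emod, sub_add_cancel]
  simp only [e]

theorem ends_tri_tight (L : List (Z N)) (hn : 0 < L.length) (ht : Tight L) (j : ℤ) :
    ends_tri_X L hn j ≠ inv (ends_tri_X L hn (j - 1)) := by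
  have hlen : (turns L).length = L.length := by simp [turns]
  have hi : ((j - 1) % (L.length : ℤ)).toNat < (turns L).length := by
    rw [hlen]; exact ends_tri_idx _ hn _
  have h := ht _ (List.getElem_mem hi)
  rw [ends_tri_turn L hn j hi] at h
  exact fun hh => h hh.symm

theorem ends_tri_short (p : FreeGroup (Fin N)) (x : Z N) (y : Z N) (hy : y ∈ p.toWord.getLast?)
    (hxy : x = inv y) : (p * FreeGroup.mk [x]).toWord.length < p.toWord.length := by
  obtain ⟨V, hV⟩ : ∃ V, p.toWord = V ++ [y] := by
    have := List.dropLast_append_getLast?  y hy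
    exact ⟨_, this.symm⟩
  have hp : p = FreeGroup.mk V * FreeGroup.mk [y] := by
    rw [FreeGroup.mul_mk, ← hV, FreeGroup.mk_toWord]
  have h1 : p * FreeGroup.mk [x] = FreeGroup.mk V := by
    rw [hp, mul_assoc, hxy, ends_tri_mk_inv, mul_one]
  rw [h1, hV]
  have := FreeGroup.norm_mk_le (L₁ := V)
  unfold FreeGroup.norm at this
  simp only [List.length_append, List.length_singleton]
  omega

theorem ends_tri_zero (L : List (Z N)) (hn : 0 < L.length) (g : FreeGroup (Fin N)) (k : ℕ) :
    g * (FreeGroup.mk L) ^ k = ends_tri_P L g ((k * L.length : ℕ) : ℤ) := by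
  unfold ends_tri_P
  push_cast
  rw [Int.mul_ediv_cancel _ (by omega), Int.mul_emod_left]
  simp [← FreeGroup.one_eq_mk]

theorem ends_tri_zero' (L : List (Z N)) (hn : 0 < L.length) (g : FreeGroup (Fin N)) (k : ℕ) :
    g * ((FreeGroup.mk L) ^ k)⁻¹ = ends_tri_P L g (-((k * L.length : ℕ) : ℤ)) := by
  unfold ends_tri_P
  push_cast
  rw [← neg_mul, Int.mul_ediv_cancel _ (by omega), Int.mul_emod_left]
  simp [← FreeGroup.one_eq_mk]

theorem ends_tri_evF (L : List (Z N)) (hn : 0 < L.length) (g : FreeGroup (Fin N)) (j : ℤ)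
    (z : Z N)
    (H : ∀ K : ℕ, 0 < K → ends_tri_P L g (j + K) ∈ St z) :
    ∀ᶠ k : ℕ in Filter.atTop, g * (FreeGroup.mk L) ^ k ∈ St z := by
  filter_upwards [Filter.eventually_ge_atTop (j.natAbs + 1)] with k hk
  rw [ends_tri_zero L hn g k]
  have h1 : k ≤ k * L.length := Nat.le_mul_of_pos_right _ hn
  obtain ⟨K, hK⟩ : ∃ K : ℕ, (K : ℤ) = ((k * L.length : ℕ) : ℤ) - j :=
    ⟨(((k * L.length : ℕ) : ℤ) - j).toNat, Int.toNat_of_nonneg (by omega)⟩
  have h2 := H K (by omega)
  rwa [hK, add_sub_cancel] at h2

theorem ends_tri_evB (L : List (Z N)) (hn : 0 < L.length) (g : FreeGroup (Fin N)) (j : ℤ)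
    (z : Z N)
    (H : ∀ K : ℕ, 0 < K → ends_tri_P L g (j - K) ∈ St z) :
    ∀ᶠ k : ℕ in Filter.atTop, g * ((FreeGroup.mk L) ^ k)⁻¹ ∈ St z := by
  filter_upwards [Filter.eventually_ge_atTop (j.natAbs + 1)] with k hk
  rw [ends_tri_zero' L hn g k]
  have h1 : k ≤ k * L.length := Nat.le_mul_of_pos_right _ hn
  obtain ⟨K, hK⟩ : ∃ K : ℕ, (K : ℤ) = ((k * L.length : ℕ) : ℤ) + j :=
    ⟨(((k * L.length : ℕ) : ℤ) + j).toNat, Int.toNat_of_nonneg (by omega)⟩
  have h2 := H K (by omega)
  rw [hK] at h2
  have e : j - (((k * L.length : ℕ) : ℤ) + j) = -((k * L.length : ℕ) : ℤ) := by ring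
  rwa [e] at h2

theorem ends_tri_headF (L : List (Z N)) (hn : 0 < L.length) (ht : Tight L)
    (g : FreeGroup (Fin N)) (j : ℤ) (K : ℕ)
    (h0 : ∀ y ∈ (ends_tri_P L g j).toWord.getLast?, ends_tri_X L hn j ≠ inv y) :
    (ends_tri_P L g (j + K)).toWord = (ends_tri_P L g j).toWord ++
      (List.range K).map (fun t : ℕ => ends_tri_X L hn (j + t)) := by
  rw [ends_tri_fwd L hn g j K]
  have hred := ends_tri_red (ends_tri_P L g j).toWord FreeGroup.isReduced_toWord
    (fun t : ℕ => ends_tri_X L hn (j + t)) (by simpa using h0)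
    (by
      intro t
      have := ends_tri_tight L hn ht (j + (t + 1 : ℕ))
      have e : j + ((t + 1 : ℕ) : ℤ) - 1 = j + t := by push_cast; ring
      rwa [e] at this) K
  have e : ends_tri_P L g j * FreeGroup.mk ((List.range K).map (fun t : ℕ => ends_tri_X L hn (j + t))) =
      FreeGroup.mk ((ends_tri_P L g j).toWord ++
        (List.range K).map (fun t : ℕ => ends_tri_X L hn (j + t))) := by
    rw [← FreeGroup.mul_mk, FreeGroup.mk_toWord]
  rw [e, FreeGroup.toWord_mk, hred.reduce_eq]

theorem ends_tri_headB (L : List (Z N)) (hn : 0 < L.length) (ht : Tight L)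
    (g : FreeGroup (Fin N)) (j : ℤ) (K : ℕ)
    (h0 : ∀ y ∈ (ends_tri_P L g j).toWord.getLast?, inv (ends_tri_X L hn (j - 1)) ≠ inv y) :
    (ends_tri_P L g (j - K)).toWord = (ends_tri_P L g j).toWord ++
      (List.range K).map (fun t : ℕ => inv (ends_tri_X L hn (j - 1 - t))) := by
  rw [ends_tri_bwd L hn g j K]
  have hred := ends_tri_red (ends_tri_P L g j).toWord FreeGroup.isReduced_toWord
    (fun t : ℕ => inv (ends_tri_X L hn (j - 1 - t))) (by simpa using h0)
    (by
      intro t
      have := ends_tri_tight L hn ht (j - 1 - t)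
      have e : j - 1 - ((t + 1 : ℕ) : ℤ) = j - 1 - t - 1 := by push_cast; ring
      simp only [e]
      rw [ends_tri_inv_inv]
      exact fun hh => this hh.symm) K
  have e : ends_tri_P L g j * FreeGroup.mk ((List.range K).map
        (fun t : ℕ => inv (ends_tri_X L hn (j - 1 - t)))) =
      FreeGroup.mk ((ends_tri_P L g j).toWord ++
        (List.range K).map (fun t : ℕ => inv (ends_tri_X L hn (j - 1 - t)))) := by
    rw [← FreeGroup.mul_mk, FreeGroup.mk_toWord]
  rw [e, FreeGroup.toWord_mk, hred.reduce_eq]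

/-- Position of a translate `k ↦ g w^k` of the axis of the tight word `w = mk L` relative to the
vertex `1`: it passes through `1` at a unique turn and its ends start with the two letters of the turn, or
both ends start with the same letter. Proof: choose `(m, i)` with the length of
`v = g * w ^ m * mk (L.take (i+1))` minimal. If `v = 1`: first alternative. If `v ≠ 1`, minimality says
that there is no cancellation between `v` and the two rays of the line (which are reduced words because
`L` is tight: `L ++ L ++ ... ++ L` and its prefixes/suffixes are reduced), so everything starts with the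
first letter of `v`. -/
theorem ends_tri (L : List (Z N)) (hne : L ≠ []) (ht : Tight L) (g : FreeGroup (Fin N)) :
    (∃ (i : ℕ) (hi : i < (turns L).length) (m : ℤ),
      g * (FreeGroup.mk L) ^ m * FreeGroup.mk (L.take (i + 1)) = 1 ∧
      (∀ᶠ k : ℕ in Filter.atTop, g * (FreeGroup.mk L) ^ k ∈ St ((turns L)[i].2)) ∧
      (∀ᶠ k : ℕ in Filter.atTop, g * ((FreeGroup.mk L) ^ k)⁻¹ ∈ St ((turns L)[i].1))) ∨
    (∃ z : Z N, (∀ᶠ k : ℕ in Filter.atTop, g * (FreeGroup.mk L) ^ k ∈ St z) ∧
      (∀ᶠ k : ℕ in Filter.atTop, g * ((FreeGroup.mk L) ^ k)⁻¹ ∈ St z)) := by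
  have hn : 0 < L.length := List.length_pos_of_ne_nil hne
  by_cases hA : ∃ j : ℤ, ends_tri_P L g j = 1
  · left
    obtain ⟨j, hj⟩ := hA
    have hlen : (turns L).length = L.length := by simp [turns]
    have hi : ((j - 1) % (L.length : ℤ)).toNat < (turns L).length := by
      rw [hlen]; exact ends_tri_idx _ hn _
    refine ⟨((j - 1) % (L.length : ℤ)).toNat, hi, (j - 1) / (L.length : ℤ), ?_, ?_, ?_⟩
    · have h := ends_tri_step L hn g (j - 1)
      rw [sub_add_cancel, hj] at h
      have hr := ends_tri_idx L.length hn (j - 1)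
      rw [List.take_succ_eq_append_getElem hr, ← FreeGroup.mul_mk, ← mul_assoc]
      exact h.symm
    · rw [ends_tri_turn L hn j hi]
      refine ends_tri_evF L hn g j _ ?_
      intro K hK
      have := ends_tri_headF L hn ht g j K (by simp [hj])
      unfold St
      rw [Set.mem_ofPred_eq, this, hj]
      obtain ⟨K, rfl⟩ : ∃ K', K = K' + 1 := ⟨K - 1, by omega⟩
      simp [List.range_succ_eq_map]
    · rw [ends_tri_turn L hn j hi]
      refine ends_tri_evB L hn g j _ ?_
      intro K hK
      have := ends_tri_headB L hn ht g j K (by simp [hj])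
      unfold St
      rw [Set.mem_ofPred_eq, this, hj]
      obtain ⟨K, rfl⟩ : ∃ K', K = K' + 1 := ⟨K - 1, by omega⟩
      simp [List.range_succ_eq_map]
  · right
    push Not at hA
    obtain ⟨j, hj⟩ : ∃ j : ℤ, ∀ j' : ℤ,
        (ends_tri_P L g j).toWord.length ≤ (ends_tri_P L g j').toWord.length := by
      have hw := WellFounded.has_min (InvImage.wf (fun j : ℤ => (ends_tri_P L g j).toWord.length)
        Nat.lt_wfRel.wf) Set.univ ⟨0, trivial⟩
      obtain ⟨j, -, hj⟩ := hw
      refine ⟨j, fun j' => ?_⟩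
      have := hj j' trivial
      exact Nat.not_lt.mp this
    have hV : (ends_tri_P L g j).toWord ≠ [] := by
      intro h
      exact hA j (FreeGroup.toWord_eq_nil_iff.mp h)
    obtain ⟨z, hz⟩ : ∃ z, (ends_tri_P L g j).toWord.head? = some z := by
      rcases hc : (ends_tri_P L g j).toWord with _ | ⟨a, l⟩
      · exact absurd hc hV
      · exact ⟨a, by simp⟩
    refine ⟨z, ?_, ?_⟩
    · refine ends_tri_evF L hn g j _ ?_
      intro K hK
      have := ends_tri_headF L hn ht g j K (by
        intro y hy hxy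
        have h1 := ends_tri_short _ _ y hy hxy
        rw [← ends_tri_step L hn g j] at h1
        have := hj (j + 1)
        omega)
      unfold St
      rw [Set.mem_ofPred_eq, this, List.head?_append, hz]
      rfl
    · refine ends_tri_evB L hn g j _ ?_
      intro K hK
      have := ends_tri_headB L hn ht g j K (by
        intro y hy hxy
        have h1 := ends_tri_short _ _ y hy hxy
        rw [← ends_tri_step' L hn g j] at h1
        have := hj (j - 1)
        omega)
      unfold St
      rw [Set.mem_ofPred_eq, this, List.head?_append, hz]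
      rfl


end MC

end PW
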