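import Pool.Agent.Helper693.PW.MCDefs
import Pool.Agent.Helper419.PW.Red

set_option autoImplicit false

namespace PW

namespace MC

variable {N : ℕ}

theorem tight_cyc (L : List (Z N)) (ht : Tight L) :
    FreeGroup.IsCyclicallyReduced L := by
  have hlen : (turns L).length = L.length := by simp [turns]
  have key : ∀ (i : ℕ) (hi : i < L.length) (a b : Z N), L[i] = a →
      L[(i + 1) % L.length]'(Nat.mod_lt _ (by omega)) = b → a.1 = b.1 → a.2 = b.2 := by
    intro i hi a b ha hb h1
    have hi' : i < (turns L).length := by rw [hlen]; exact hi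
    have h2 := ht _ (List.getElem_mem hi')
    have h3 : (turns L)[i] = (inv a, b) := by
      simp only [turns, List.getElem_zip, List.getElem_map, List.getElem_rotate]
      rw [ha, hb]
    rw [h3] at h2
    by_contra h4
    apply h2
    show inv a = b
    have h5 : (!a.2) = b.2 := by
      cases ha2 : a.2 <;> cases hb2 : b.2 <;> simp_all
    exact Prod.ext h1 h5
  refine ⟨?_, ?_⟩
  · unfold FreeGroup.IsReduced
    rw [List.isChain_iff_getElem]
    intro i hi
    refine key i (by omega) _ _ rfl ?_
    congr 1
    exact Nat.mod_eq_of_lt hi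
  · intro a ha b hb
    have hne : L ≠ [] := by
      rintro rfl
      simp at ha
    have hpos : 0 < L.length := List.length_pos_iff.mpr hne
    have ha' : L[L.length - 1]'(by omega) = a := by
      rw [List.getLast?_eq_getElem?] at ha
      rw [List.getElem?_eq_getElem (by omega)] at ha
      simpa using ha
    have hb' : L[0]'(by omega) = b := by
      rw [List.head?_eq_getElem?] at hb
      rw [List.getElem?_eq_getElem (by omega)] at hb
      simpa using hb
    refine key (L.length - 1) (by omega) a b ha' ?_
    have e : (L.length - 1 + 1) % L.length = 0 := by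
      rw [Nat.sub_add_cancel hpos, Nat.mod_self]
    rw [← hb']
    congr 1

theorem turn_inj_aux (L : List (Z N)) (ht : Tight L) (k i i' : ℕ)
    (hi' : i' < L.length) (hi : i < L.length)
    (h : (FreeGroup.mk L) ^ k * FreeGroup.mk (L.take (i + 1)) = FreeGroup.mk (L.take (i' + 1))) :
    i = i' := by
  have hc := tight_cyc L ht
  have hr1 : FreeGroup.IsReduced ((List.replicate k L).flatten ++ L.take (i + 1)) := by
    refine (hc.flatten_replicate (k + 1)).isReduced.pwSub ⟨[], L.drop (i + 1), ?_⟩
    rw [List.replicate_succ', List.flatten_append]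
    simp
  have hr2 : FreeGroup.IsReduced (L.take (i' + 1)) :=
    hc.isReduced.pwSub ⟨[], L.drop (i' + 1), by simp⟩
  rw [FreeGroup.pow_mk, FreeGroup.mul_mk] at h
  have h2 := congrArg FreeGroup.toWord h
  rw [FreeGroup.toWord_mk, FreeGroup.toWord_mk, hr1.reduce_eq, hr2.reduce_eq] at h2
  have h3 := congrArg List.length h2
  rw [List.length_append, List.length_take, List.length_take, List.length_flatten,
    List.map_replicate, List.sum_replicate] at h3
  simp only [smul_eq_mul] at h3
  rcases Nat.eq_zero_or_pos k with hk | hk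
  · subst hk
    omega
  · have : L.length ≤ k * L.length := Nat.le_mul_of_pos_left _ hk
    omega

theorem turn_inj_le (L : List (Z N)) (ht : Tight L) (g : FreeGroup (Fin N)) (i i' : ℕ)
    (hi : i < L.length) (hi' : i' < L.length) (m m' : ℤ) (hm : m' ≤ m)
    (h : g * (FreeGroup.mk L) ^ m * FreeGroup.mk (L.take (i + 1)) = 1)
    (h' : g * (FreeGroup.mk L) ^ m' * FreeGroup.mk (L.take (i' + 1)) = 1) : i = i' := by
  obtain ⟨k, hk⟩ := Int.le.dest hm
  apply turn_inj_aux L ht k i i' hi' hi
  have h1 : g * (FreeGroup.mk L) ^ m * FreeGroup.mk (L.take (i + 1)) =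
      g * (FreeGroup.mk L) ^ m' * FreeGroup.mk (L.take (i' + 1)) := by rw [h, h']
  rw [← hk, zpow_add, zpow_natCast] at h1
  have h2 : (g * FreeGroup.mk L ^ m') * ((FreeGroup.mk L) ^ k * FreeGroup.mk (L.take (i + 1))) =
      (g * FreeGroup.mk L ^ m') * FreeGroup.mk (L.take (i' + 1)) := by
    rw [← h1]; group
  exact mul_left_cancel h2

/-- the axis of a tight word passes at most once through a vertex -/
theorem turn_inj (L : List (Z N)) (hne : L ≠ []) (ht : Tight L) (g : FreeGroup (Fin N)) (i i' : ℕ)
    (hi : i < L.length) (hi' : i' < L.length) (m m' : ℤ)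
    (h : g * (FreeGroup.mk L) ^ m * FreeGroup.mk (L.take (i + 1)) = 1)
    (h' : g * (FreeGroup.mk L) ^ m' * FreeGroup.mk (L.take (i' + 1)) = 1) : i = i' := by
  rcases le_total m' m with hm | hm
  · exact turn_inj_le L ht g i i' hi hi' m m' hm h h'
  · exact (turn_inj_le L ht g i' i hi' hi m' m hm h' h).symm


end MC

end PW
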