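import Pool.Agent.Helper693.PW.MC1
import Pool.Agent.Helper693.PW.MC2
import Pool.Agent.Helper419.PW.Red

set_option autoImplicit false

namespace PW

namespace MC

variable {N : ℕ}



theorem flip_countP {α : Type*} (l : List α) (p : α → Bool) :
    l.countP p = (Finset.univ.filter fun i : Fin l.length => p l[i] = true).card := by
  induction l with
  | nil => rfl
  | cons a l ih =>
    rw [List.countP_cons, ih]
    have h := Fin.card_filter_univ_succ (n := l.length)
      (fun i : Fin (l.length + 1) => p (a :: l)[i] = true)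
    refine Eq.trans ?_ h.symm
    by_cases hp : p a = true
    · rw [if_pos hp, if_pos (by simpa using hp)]
      rfl
    · rw [if_neg hp, if_neg (by simpa using hp)]
      rfl

theorem flip_len (L : List (Z N)) : (turns L).length = L.length := by
  simp [turns]

theorem flip_turn (L : List (Z N)) (i : ℕ) (hi : i < (turns L).length) :
    (turns L)[i] = (inv (L[i]'(by rw [flip_len] at hi; exact hi)),
      L[(i + 1) % L.length]'(Nat.mod_lt _ (by rw [flip_len] at hi; omega))) := by
  simp [turns, List.getElem_zip, List.getElem_rotate]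

theorem flip_cyc (L : List (Z N)) (ht : Tight L) : FreeGroup.IsCyclicallyReduced L := by
  have key : ∀ (i : ℕ) (hi : i < L.length), (L[i]).1 =
      (L[(i + 1) % L.length]'(Nat.mod_lt _ (by omega))).1 →
      (L[i]).2 = (L[(i + 1) % L.length]'(Nat.mod_lt _ (by omega))).2 := by
    intro i hi h1
    have hi' : i < (turns L).length := by rw [flip_len]; exact hi
    have h2 := ht _ (List.getElem_mem hi')
    rw [flip_turn] at h2
    by_contra hcon
    apply h2
    apply Prod.ext
    · exact h1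
    · show (!(L[i]).2) = _
      revert hcon
      cases (L[i]).2 <;> cases (L[(i + 1) % L.length]'(Nat.mod_lt _ (by omega))).2 <;> simp
  refine ⟨?_, ?_⟩
  · unfold FreeGroup.IsReduced
    rw [List.isChain_iff_getElem]
    intro i hi h1
    have h2 := key i (by omega)
    have h3 : (i + 1) % L.length = i + 1 := Nat.mod_eq_of_lt hi
    simp only [h3] at h2
    exact h2 h1
  · intro a ha b hb hab
    have hne : 0 < L.length := by
      cases L with
      | nil => simp at hb
      | cons x l => simp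
    have h2 := key (L.length - 1) (by omega)
    have h3 : (L.length - 1 + 1) % L.length = 0 := by
      rw [Nat.sub_add_cancel hne, Nat.mod_self]
    simp only [h3] at h2
    have ha' : L[L.length - 1] = a := by
      rw [Option.mem_def, List.getLast?_eq_getElem?, List.getElem?_eq_getElem (by omega)] at ha
      exact Option.some.inj ha
    have hb' : L[0] = b := by
      rw [Option.mem_def, List.head?_eq_getElem?, List.getElem?_eq_getElem hne] at hb
      exact Option.some.inj hb
    rw [ha', hb'] at h2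
    exact h2 hab

theorem flip_end2 (L : List (Z N)) (ht : Tight L) (i : ℕ) (hi : i < (turns L).length) :
    ∀ᶠ k : ℕ in Filter.atTop,
      (FreeGroup.mk (L.take (i + 1)))⁻¹ * (FreeGroup.mk L) ^ k ∈ St ((turns L)[i].2) := by
  have hcyc := flip_cyc L ht
  have hi' : i < L.length := by rw [flip_len] at hi; exact hi
  filter_upwards [Filter.eventually_ge_atTop 2] with k hk
  obtain ⟨k', rfl⟩ : ∃ k', k = k' + 2 := ⟨k - 2, by omega⟩
  have h1 : (FreeGroup.mk (L.take (i + 1)))⁻¹ * (FreeGroup.mk L) ^ (k' + 2) =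
      FreeGroup.mk (L.drop (i + 1) ++ (List.replicate (k' + 1) L).flatten) := by
    rw [pow_succ', FreeGroup.pow_mk, ← mul_assoc, ← FreeGroup.mul_mk]
    congr 1
    rw [inv_mul_eq_iff_eq_mul, FreeGroup.mul_mk, List.take_append_drop]
  have hred : FreeGroup.IsReduced (L.drop (i + 1) ++ (List.replicate (k' + 1) L).flatten) := by
    refine (hcyc.flatten_replicate (k' + 2)).isReduced.pwSub ⟨L.take (i + 1), [], ?_⟩
    rw [List.append_nil, ← List.append_assoc, List.take_append_drop,
      List.replicate_succ (n := k' + 1), List.flatten_cons]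
  rw [h1]
  show (FreeGroup.mk _).toWord.head? = _
  rw [FreeGroup.toWord_mk, hred.reduce_eq, flip_turn]
  show _ = some (L[(i + 1) % L.length]'(Nat.mod_lt _ (by omega)))
  by_cases hlast : i + 1 < L.length
  · have h3 : (i + 1) % L.length = i + 1 := Nat.mod_eq_of_lt hlast
    simp only [h3]
    rw [List.head?_append, List.head?_drop, List.getElem?_eq_getElem hlast]
    rfl
  · have h3 : (i + 1) % L.length = 0 := by
      have : i + 1 = L.length := by omega
      rw [this, Nat.mod_self]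
    simp only [h3]
    rw [List.drop_eq_nil_of_le (by omega), List.nil_append, List.replicate_succ, List.flatten_cons,
      List.head?_append, List.head?_eq_getElem?, List.getElem?_eq_getElem (by omega)]
    rfl

theorem flip_end1 (L : List (Z N)) (ht : Tight L) (i : ℕ) (hi : i < (turns L).length) :
    ∀ᶠ k : ℕ in Filter.atTop,
      (FreeGroup.mk (L.take (i + 1)))⁻¹ * ((FreeGroup.mk L) ^ k)⁻¹ ∈ St ((turns L)[i].1) := by
  have hcyc := flip_cyc L ht
  have hi' : i < L.length := by rw [flip_len] at hi; exact hi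
  refine Filter.Eventually.of_forall fun k => ?_
  have h1 : (FreeGroup.mk (L.take (i + 1)))⁻¹ * ((FreeGroup.mk L) ^ k)⁻¹ =
      (FreeGroup.mk ((List.replicate k L).flatten ++ L.take (i + 1)))⁻¹ := by
    rw [← FreeGroup.mul_mk, mul_inv_rev, FreeGroup.pow_mk]
  have hred : FreeGroup.IsReduced ((List.replicate k L).flatten ++ L.take (i + 1)) := by
    refine (hcyc.flatten_replicate (k + 1)).isReduced.pwSub ⟨[], L.drop (i + 1), ?_⟩
    rw [List.nil_append, List.append_assoc, List.take_append_drop, List.replicate_succ',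
      List.flatten_concat]
  rw [h1]
  show (FreeGroup.mk _)⁻¹.toWord.head? = _
  rw [FreeGroup.toWord_inv, FreeGroup.toWord_mk, hred.reduce_eq, flip_turn]
  show _ = some (inv L[i])
  unfold FreeGroup.invRev
  rw [List.head?_reverse, List.getLast?_map, List.getLast?_append]
  have h2 : (L.take (i + 1)).getLast? = some L[i] := by
    rw [List.getLast?_eq_getElem?, List.length_take, Nat.min_eq_left (by omega),
      Nat.add_sub_cancel, List.getElem?_take, if_pos (by omega), List.getElem?_eq_getElem hi']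
  rw [h2]
  rfl

theorem flip_shift {F : Type*} [Group F] (w g : F) (m : ℤ) (p : F → Prop)
    (h : ∀ᶠ k : ℕ in Filter.atTop, p (g * w ^ k)) :
    ∀ᶠ k : ℕ in Filter.atTop, p (g * w ^ m * w ^ k) := by
  obtain ⟨K, hK⟩ := Filter.eventually_atTop.mp h
  filter_upwards [Filter.eventually_ge_atTop (K + m.natAbs)] with k hk
  have h1 : w ^ m * w ^ k = w ^ ((m + k).toNat) := by
    rw [← zpow_natCast w k, ← zpow_add, ← zpow_natCast w ((m + k).toNat)]
    congr 1
    omega
  rw [mul_assoc, h1]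
  exact hK _ (by omega)

theorem flip_shift' {F : Type*} [Group F] (w g : F) (m : ℤ) (p : F → Prop)
    (h : ∀ᶠ k : ℕ in Filter.atTop, p (g * (w ^ k)⁻¹)) :
    ∀ᶠ k : ℕ in Filter.atTop, p (g * w ^ m * (w ^ k)⁻¹) := by
  have h1 := flip_shift w⁻¹ g (-m) p (by simpa only [inv_pow] using h)
  simpa only [inv_pow, inv_zpow, zpow_neg, inv_inv] using h1

/-- TO PROVE: recolouring beyond `v` in the directions `A`. For each turn `i` of `L` let
`γ_i` be the coset of `g_i = v * (mk (L.take (i+1)))⁻¹`; `i ↦ γ_i` is injective (turn_inj) and its ends lie in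
`v * St (turn.2)`, `v * St (turn.1)`. Turns in `A × C` give elements of `Dset c` not in `Dset c'`; a coset in
`Dset c'` but not in `Dset c` is a `γ_i` with turn in `A × (A ∪ C)ᶜ` (ends_tri applied to `v⁻¹ * g`). -/
theorem flip (L : List (Z N)) (hne : L ≠ []) (ht : Tight L) (c c' : FreeGroup (Fin N) → Bool)
    (v : FreeGroup (Fin N)) (A C : Finset (Z N)) (hd : Disjoint A C) (s : Bool)
    (hA : ∀ z ∈ A, ∀ h : FreeGroup (Fin N), v⁻¹ * h ∈ St z → c h = s)
    (hC : ∀ z ∈ C, ∀ h : FreeGroup (Fin N), v⁻¹ * h ∈ St z → c h = !s)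
    (hA' : ∀ z ∈ A, ∀ h : FreeGroup (Fin N), v⁻¹ * h ∈ St z → c' h = !s)
    (hc' : ∀ z, z ∉ A → ∀ h : FreeGroup (Fin N), v⁻¹ * h ∈ St z → c' h = c h)
    (hfin : (Dset c (FreeGroup.mk L)).Finite) :
    tn L A C ≤ (Dset c (FreeGroup.mk L)).ncard ∧
    (Dset c' (FreeGroup.mk L)).Finite ∧
    (Dset c' (FreeGroup.mk L)).ncard + tn L A C ≤
      (Dset c (FreeGroup.mk L)).ncard + tn L A (A ∪ C)ᶜ := by
  classical
  obtain ⟨w, hw⟩ : ∃ w : FreeGroup (Fin N), w = FreeGroup.mk L := ⟨_, rfl⟩
  rw [← hw] at hfin ⊢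
  -- the elements `g_i`
  obtain ⟨gg, hgg⟩ : ∃ gg : Fin (turns L).length → FreeGroup (Fin N),
      ∀ i, gg i = v * (FreeGroup.mk (L.take ((i : ℕ) + 1)))⁻¹ := ⟨_, fun _ => rfl⟩
  have hE2 : ∀ i : Fin (turns L).length, ∀ᶠ k : ℕ in Filter.atTop,
      v⁻¹ * (gg i * w ^ k) ∈ St ((turns L)[i].2) := by
    intro i
    filter_upwards [flip_end2 L ht i i.2] with k hk
    rw [hgg, hw, ← mul_assoc, inv_mul_cancel_left]
    exact hk
  have hE1 : ∀ i : Fin (turns L).length, ∀ᶠ k : ℕ in Filter.atTop,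
      v⁻¹ * (gg i * (w ^ k)⁻¹) ∈ St ((turns L)[i].1) := by
    intro i
    filter_upwards [flip_end1 L ht i i.2] with k hk
    rw [hgg, hw, ← mul_assoc, inv_mul_cancel_left]
    exact hk
  have hinj : Function.Injective (fun i : Fin (turns L).length =>
      (QuotientGroup.mk (gg i) : FreeGroup (Fin N) ⧸ Subgroup.zpowers w)) := by
    intro i j hij
    have h1 : (gg i)⁻¹ * gg j ∈ Subgroup.zpowers w := QuotientGroup.eq.mp hij
    obtain ⟨m, hm⟩ := Subgroup.mem_zpowers_iff.mp h1
    have hi : (i : ℕ) < L.length := lt_of_lt_of_eq i.2 (flip_len L)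
    have hj : (j : ℕ) < L.length := lt_of_lt_of_eq j.2 (flip_len L)
    apply Fin.ext
    refine turn_inj L hne ht (v⁻¹ * gg i) i j hi hj 0 m ?_ ?_
    · rw [zpow_zero, mul_one, hgg, inv_mul_cancel_left, inv_mul_cancel]
    · rw [← hw, hm, mul_assoc (v⁻¹), mul_inv_cancel_left, hgg, inv_mul_cancel_left,
        inv_mul_cancel]
  -- the colours
  have hCA : ∀ z ∈ C, z ∉ A := fun z hz hzA => Finset.disjoint_left.mp hd hzA hz
  -- two ends of the same colour
  have hsame : ∀ (g : FreeGroup (Fin N)) (b : Bool),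
      (∀ᶠ k : ℕ in Filter.atTop, c' (g * w ^ k) = b) →
      (∀ᶠ k : ℕ in Filter.atTop, c' (g * (w ^ k)⁻¹) = b) →
      (QuotientGroup.mk g : FreeGroup (Fin N) ⧸ Subgroup.zpowers w) ∉ Dset c' w := by
    rintro g b hb1 hb2 ⟨g', hg', s', h1, h2⟩
    have h3 : g'⁻¹ * g ∈ Subgroup.zpowers w := QuotientGroup.eq.mp hg'
    obtain ⟨m, hm⟩ := Subgroup.mem_zpowers_iff.mp h3
    have hg : g' * w ^ m = g := by rw [hm, mul_inv_cancel_left]
    have h4 := flip_shift w g' m (fun h => c' h = s') h1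
    have h5 := flip_shift' w g' m (fun h => c' h = !s') h2
    simp only [hg] at h4 h5
    obtain ⟨k, ⟨h6, h7⟩, h8, h9⟩ := ((h4.and h5).and (hb1.and hb2)).exists
    rw [h8] at h6
    rw [h9] at h7
    rw [h6] at h7
    cases s' <;> simp at h7
  have hP : ∀ i : Fin (turns L).length,
      (((turns L)[i].1 ∈ A ∧ (turns L)[i].2 ∈ C) ∨ ((turns L)[i].1 ∈ C ∧ (turns L)[i].2 ∈ A)) →
      (QuotientGroup.mk (gg i) : FreeGroup (Fin N) ⧸ Subgroup.zpowers w) ∈ Dset c w ∧
      (QuotientGroup.mk (gg i) : FreeGroup (Fin N) ⧸ Subgroup.zpowers w) ∉ Dset c' w := by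
    intro i hi
    rcases hi with ⟨h1, h2⟩ | ⟨h1, h2⟩
    · refine ⟨⟨gg i, rfl, !s, ?_, ?_⟩, hsame (gg i) (!s) ?_ ?_⟩
      · filter_upwards [hE2 i] with k hk
        exact hC _ h2 _ hk
      · filter_upwards [hE1 i] with k hk
        rw [hA _ h1 _ hk, Bool.not_not]
      · filter_upwards [hE2 i] with k hk
        rw [hc' _ (hCA _ h2) _ hk]
        exact hC _ h2 _ hk
      · filter_upwards [hE1 i] with k hk
        exact hA' _ h1 _ hk
    · refine ⟨⟨gg i, rfl, s, ?_, ?_⟩, hsame (gg i) (!s) ?_ ?_⟩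
      · filter_upwards [hE2 i] with k hk
        exact hA _ h2 _ hk
      · filter_upwards [hE1 i] with k hk
        exact hC _ h1 _ hk
      · filter_upwards [hE2 i] with k hk
        exact hA' _ h2 _ hk
      · filter_upwards [hE1 i] with k hk
        rw [hc' _ (hCA _ h1) _ hk]
        exact hC _ h1 _ hk
  have hQ : ∀ x ∈ Dset c' w, x ∉ Dset c w → ∃ i : Fin (turns L).length,
      (((turns L)[i].1 ∈ A ∧ (turns L)[i].2 ∈ (A ∪ C)ᶜ) ∨
        ((turns L)[i].1 ∈ (A ∪ C)ᶜ ∧ (turns L)[i].2 ∈ A)) ∧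
      (QuotientGroup.mk (gg i) : FreeGroup (Fin N) ⧸ Subgroup.zpowers w) = x := by
    intro x hx hx'
    have hx0 := hx
    obtain ⟨g, rfl, s', h1, h2⟩ := hx
    -- colours of the two ends
    have same : ∀ z1 z2 : Z N, z1 ∉ A → z2 ∉ A →
        (∀ᶠ k : ℕ in Filter.atTop, v⁻¹ * (g * w ^ k) ∈ St z2) →
        (∀ᶠ k : ℕ in Filter.atTop, v⁻¹ * (g * (w ^ k)⁻¹) ∈ St z1) → False := by
      intro z1 z2 hz1 hz2 e2 e1
      apply hx'
      refine ⟨g, rfl, s', ?_, ?_⟩
      · filter_upwards [h1, e2] with k hk1 hk2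
        rw [← hc' z2 hz2 _ hk2]
        exact hk1
      · filter_upwards [h2, e1] with k hk1 hk2
        rw [← hc' z1 hz1 _ hk2]
        exact hk1
    have bad : ∀ z1 z2 : Z N, (z1 ∈ A ∨ z1 ∈ C) → (z2 ∈ A ∨ z2 ∈ C) →
        (∀ᶠ k : ℕ in Filter.atTop, v⁻¹ * (g * w ^ k) ∈ St z2) →
        (∀ᶠ k : ℕ in Filter.atTop, v⁻¹ * (g * (w ^ k)⁻¹) ∈ St z1) → False := by
      intro z1 z2 hz1 hz2 e2 e1
      have hcol : ∀ z, (z ∈ A ∨ z ∈ C) → ∀ h : FreeGroup (Fin N), v⁻¹ * h ∈ St z →
          c' h = !s := by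
        intro z hz h hh
        rcases hz with hz | hz
        · exact hA' z hz h hh
        · rw [hc' z (hCA z hz) h hh]
          exact hC z hz h hh
      refine hsame g (!s) ?_ ?_ hx0
      · filter_upwards [e2] with k hk
        exact hcol z2 hz2 _ hk
      · filter_upwards [e1] with k hk
        exact hcol z1 hz1 _ hk
    rcases ends_tri L hne ht (v⁻¹ * g) with ⟨i, hi, m, heq, e2, e1⟩ | ⟨z, e2, e1⟩
    · rw [← hw] at heq e2 e1
      simp only [mul_assoc v⁻¹ g] at e2 e1
      refine ⟨⟨i, hi⟩, ?_, ?_⟩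
      · show ((turns L)[i].1 ∈ A ∧ (turns L)[i].2 ∈ (A ∪ C)ᶜ) ∨
          ((turns L)[i].1 ∈ (A ∪ C)ᶜ ∧ (turns L)[i].2 ∈ A)
        rw [Finset.mem_compl, Finset.mem_compl, Finset.mem_union, Finset.mem_union]
        by_cases h3 : (turns L)[i].1 ∈ A
        · by_cases h4 : (turns L)[i].2 ∈ A ∨ (turns L)[i].2 ∈ C
          · exact (bad _ _ (Or.inl h3) h4 e2 e1).elim
          · left; exact ⟨h3, h4⟩
        · by_cases h4 : (turns L)[i].2 ∈ A
          · by_cases h5 : (turns L)[i].1 ∈ C
            · exact (bad _ _ (Or.inr h5) (Or.inl h4) e2 e1).elim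
            · right; exact ⟨fun h => h.elim h3 h5, h4⟩
          · exact (same _ _ h3 h4 e2 e1).elim
      · have h3 : gg ⟨i, hi⟩ = g * w ^ m := by
          rw [hgg]
          have h4 : g * w ^ m * FreeGroup.mk (L.take (i + 1)) = v := by
            rw [mul_assoc, mul_assoc, inv_mul_eq_one] at heq
            rw [mul_assoc]
            exact heq.symm
          rw [← h4, mul_inv_cancel_right]
        rw [h3]
        apply QuotientGroup.eq.mpr
        rw [mul_inv_rev, mul_assoc, inv_mul_cancel, mul_one]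
        exact Subgroup.inv_mem _ (Subgroup.zpow_mem _ (Subgroup.mem_zpowers w) m)
    · rw [← hw] at e2 e1
      simp only [mul_assoc v⁻¹ g] at e2 e1
      by_cases hz : z ∈ A
      · exact (bad z z (Or.inl hz) (Or.inl hz) e2 e1).elim
      · exact (same z z hz hz e2 e1).elim
  -- counting
  obtain ⟨γ, hγ⟩ : ∃ γ : Fin (turns L).length → FreeGroup (Fin N) ⧸ Subgroup.zpowers w,
      γ = fun i => QuotientGroup.mk (gg i) := ⟨_, rfl⟩
  rw [← hγ] at hinj
  obtain ⟨T1, hT1⟩ : ∃ T1 : Finset (Fin (turns L).length), T1 = Finset.univ.filter fun i =>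
      (((turns L)[i].1 ∈ A ∧ (turns L)[i].2 ∈ C) ∨ ((turns L)[i].1 ∈ C ∧ (turns L)[i].2 ∈ A)) :=
    ⟨_, rfl⟩
  obtain ⟨T2, hT2⟩ : ∃ T2 : Finset (Fin (turns L).length), T2 = Finset.univ.filter fun i =>
      (((turns L)[i].1 ∈ A ∧ (turns L)[i].2 ∈ (A ∪ C)ᶜ) ∨
        ((turns L)[i].1 ∈ (A ∪ C)ᶜ ∧ (turns L)[i].2 ∈ A)) := ⟨_, rfl⟩
  have hc1 : tn L A C = T1.card := by
    unfold tn
    rw [flip_countP, hT1]
    simp only [decide_eq_true_eq]
  have hc2 : tn L A (A ∪ C)ᶜ = T2.card := by
    unfold tn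
    rw [flip_countP, hT2]
    simp only [decide_eq_true_eq]
  have hsub1 : γ '' (T1 : Set (Fin (turns L).length)) ⊆ Dset c w := by
    rintro _ ⟨i, hi, rfl⟩
    rw [hT1] at hi
    rw [hγ]
    exact (hP i (Finset.mem_filter.mp (Finset.mem_coe.mp hi)).2).1
  have hsub2 : Dset c' w ⊆ (Dset c w \ γ '' (T1 : Set (Fin (turns L).length))) ∪
      γ '' (T2 : Set (Fin (turns L).length)) := by
    intro x hx
    by_cases hxc : x ∈ Dset c w
    · left
      refine ⟨hxc, ?_⟩
      rintro ⟨i, hi, rfl⟩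
      rw [hT1] at hi
      rw [hγ] at hx
      exact (hP i (Finset.mem_filter.mp (Finset.mem_coe.mp hi)).2).2 hx
    · right
      obtain ⟨i, hi, hix⟩ := hQ x hx hxc
      refine ⟨i, ?_, ?_⟩
      · rw [hT2]
        exact Finset.mem_coe.mpr (Finset.mem_filter.mpr ⟨Finset.mem_univ _, hi⟩)
      · rw [hγ]
        exact hix
  have hn1 : (γ '' (T1 : Set (Fin (turns L).length))).ncard = T1.card := by
    rw [Set.ncard_image_of_injective _ hinj, Set.ncard_coe_finset]
  have hn2 : (γ '' (T2 : Set (Fin (turns L).length))).ncard = T2.card := by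
    rw [Set.ncard_image_of_injective _ hinj, Set.ncard_coe_finset]
  have hf1 : (Dset c w \ γ '' (T1 : Set (Fin (turns L).length))).Finite :=
    hfin.subset Set.sdiff_subset
  have hf2 : (γ '' (T2 : Set (Fin (turns L).length))).Finite := T2.finite_toSet.image γ
  have hf3 := hf1.union hf2
  have hle1 : T1.card ≤ (Dset c w).ncard := by
    rw [← hn1]
    exact Set.ncard_le_ncard hsub1 hfin
  have hd1 := Set.ncard_sdiff_add_ncard_of_subset hsub1 hfin
  refine ⟨by rw [hc1]; exact hle1, hf3.subset hsub2, ?_⟩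
  have h5 : (Dset c' w).ncard ≤ _ := Set.ncard_le_ncard hsub2 hf3
  have h6 := Set.ncard_union_le (Dset c w \ γ '' (T1 : Set (Fin (turns L).length)))
    (γ '' (T2 : Set (Fin (turns L).length)))
  rw [hc1, hc2]
  omega


end MC

end PW
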