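import Pool.Agent.Helper693.PW.Defs

set_option autoImplicit false

namespace PW

namespace MC

variable {N : ℕ}

/-- elements whose reduced word starts with `z` -/
def St (z : Z N) : Set (FreeGroup (Fin N)) := {h | h.toWord.head? = some z}

/-- cosets `g<w>` (= translates of the axis of `w`) whose two ends have different colours -/
def Dset (c : FreeGroup (Fin N) → Bool) (w : FreeGroup (Fin N)) :
    Set (FreeGroup (Fin N) ⧸ Subgroup.zpowers w) :=
  {γ | ∃ g : FreeGroup (Fin N), (QuotientGroup.mk g : FreeGroup (Fin N) ⧸ Subgroup.zpowers w) = γ ∧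
    ∃ s : Bool, (∀ᶠ k : ℕ in Filter.atTop, c (g * w ^ k) = s) ∧
      (∀ᶠ k : ℕ in Filter.atTop, c (g * (w ^ k)⁻¹) = !s)}

end MC

end PW
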